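import Mathlib

/-!
Definitions for the problem on affine equivalence of Bose and Singer sets.
-/

namespace Pool.Agent.H5.BoseSinger

/-- The sets `A, B ⊆ ℤ/M` are affinely equivalent: `B = {d a + s : a ∈ A}` for some unit `d`
and some `s`. -/
def AffEquiv {M : ℕ} (A B : Set (ZMod M)) : Prop :=
  ∃ d s : ZMod M, IsUnit d ∧ B = (fun a => d * a + s) '' A

section
variable (F : Type) {K : Type} [Field F] [Field K] [Algebra F K]

/-- `θ ^ b` has degree `n` over `F`. -/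
def Admissible (n : ℕ) (θ : Kˣ) (b : ℤ) : Prop :=
  (minpoly F ((θ ^ b : Kˣ) : K)).natDegree = n

/-- The Bose set: all `a ∈ ℤ/(q^h-1)` with `θ ^ a = θ ^ b + v` for some `v ∈ F`. -/
def Bose (q h : ℕ) (θ : Kˣ) (b : ℤ) : Set (ZMod (q ^ h - 1)) :=
  {x | ∃ a : ℤ, (a : ZMod (q ^ h - 1)) = x ∧
    ∃ v : F, ((θ ^ a : Kˣ) : K) = ((θ ^ b : Kˣ) : K) + algebraMap F K v}

/-- The Singer set: all `a ∈ ℤ/M`, `M = (q^(h+1)-1)/(q-1)`, with `θ ^ a = u θ ^ b + v` for some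
`u, v ∈ F`. -/
def Singer (q h : ℕ) (θ : Kˣ) (b : ℤ) : Set (ZMod ((q ^ (h + 1) - 1) / (q - 1))) :=
  {x | ∃ a : ℤ, (a : ZMod ((q ^ (h + 1) - 1) / (q - 1))) = x ∧
    ∃ u v : F, ((θ ^ a : Kˣ) : K) = algebraMap F K u * ((θ ^ b : Kˣ) : K) + algebraMap F K v}

/-- One of the conditions (i), (ii), (iii) for the pair `b, e`. -/
def BoseStep (p q h : ℕ) (θ : Kˣ) (b e : ℤ) : Prop :=
  b ≡ e [ZMOD (((q ^ h - 1) / (q - 1) : ℕ) : ℤ)] ∨
  (∃ v : F, ((θ ^ b : Kˣ) : K) - ((θ ^ e : Kˣ) : K) = algebraMap F K v) ∨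
  (∃ i : ℕ, b ≡ (p : ℤ) ^ i * e [ZMOD ((q ^ h - 1 : ℕ) : ℤ)])

/-- One of the conditions (iv), (v), (vi), (vii) for the pair `b, e`. -/
def SingerStep (p q h : ℕ) (θ : Kˣ) (b e : ℤ) : Prop :=
  b ≡ e [ZMOD (((q ^ (h + 1) - 1) / (q - 1) : ℕ) : ℤ)] ∨
  (∃ i : ℕ, b ≡ (p : ℤ) ^ i * e [ZMOD ((q ^ (h + 1) - 1 : ℕ) : ℤ)]) ∨
  (∃ v : F, ((θ ^ b : Kˣ) : K) - ((θ ^ e : Kˣ) : K) = algebraMap F K v) ∨
  (∃ r t w v : F, (r ≠ 0 ∨ t ≠ 0) ∧
    algebraMap F K r * ((θ ^ b : Kˣ) : K) + algebraMap F K t * ((θ ^ (e + b) : Kˣ) : K) +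
      algebraMap F K w * ((θ ^ e : Kˣ) : K) = algebraMap F K v)

/-- The smallest equivalence relation on admissible values containing (i)-(iii). -/
def BoseEquiv (p q h : ℕ) (θ : Kˣ) :
    {b : ℤ // Admissible F h θ b} → {b : ℤ // Admissible F h θ b} → Prop :=
  Relation.EqvGen fun b e => BoseStep F p q h θ b.1 e.1

/-- The smallest equivalence relation on admissible values containing (iv)-(vii). -/
def SingerEquiv (p q h : ℕ) (θ : Kˣ) :
    {b : ℤ // Admissible F (h + 1) θ b} → {b : ℤ // Admissible F (h + 1) θ b} → Prop :=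
  Relation.EqvGen fun b e => SingerStep F p q h θ b.1 e.1

end

/-- The assertion of Q1 for given `q` and `h`: for every field `F` with `q` elements, of
characteristic `p`, every extension `K/F` of degree `h`, every generator `θ` of `Kˣ` and all
admissible `b, e`, affine equivalence of the two Bose sets implies `b ≈ e`. -/
def BoseAssertion (q h : ℕ) : Prop :=
  ∀ (p : ℕ) (F K : Type) [Field F] [Field K] [Algebra F K] (θ : Kˣ),
    p.Prime → CharP F p → Nat.card F = q → Module.finrank F K = h →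
    (∀ x : Kˣ, x ∈ Subgroup.zpowers θ) →
    ∀ b e : {b : ℤ // Admissible F h θ b},
      AffEquiv (Bose F q h θ b.1) (Bose F q h θ e.1) → BoseEquiv F p q h θ b e

/-- The assertion of Q2 for given `q` and `h`: the same for Singer sets, where `K/F` has degree
`h + 1`. -/
def SingerAssertion (q h : ℕ) : Prop :=
  ∀ (p : ℕ) (F K : Type) [Field F] [Field K] [Algebra F K] (θ : Kˣ),
    p.Prime → CharP F p → Nat.card F = q → Module.finrank F K = h + 1 →
    (∀ x : Kˣ, x ∈ Subgroup.zpowers θ) →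
    ∀ b e : {b : ℤ // Admissible F (h + 1) θ b},
      AffEquiv (Singer F q h θ b.1) (Singer F q h θ e.1) → SingerEquiv F p q h θ b e

end Pool.Agent.H5.BoseSinger
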