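import Pool.Agent.H5.BoseDefs

namespace Pool.Agent.H5.BoseSinger

variable {F K : Type} [Field F] [Field K] [Algebra F K]

theorem frob_inv [Finite K] (p : ℕ) [hp : Fact p.Prime] [CharP K p] (i : ℕ) :
    ∃ j : ℕ, ∀ x : K, (x ^ p ^ i) ^ p ^ j = x := by
  haveI := Fintype.ofFinite K
  obtain ⟨n, -, hn⟩ := FiniteField.card K p
  have hn1 : 1 ≤ (n : ℕ) := n.2
  refine ⟨n * i - i, fun x => ?_⟩
  rw [← pow_mul, ← pow_add]
  have : i + ((n : ℕ) * i - i) = n * i := by
    have : i ≤ (n : ℕ) * i := by nlinarith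
    omega
  rw [this, pow_mul, ← hn, FiniteField.pow_card_pow]

/-- normal form for the relation of the Bose sets -/
theorem bose_form [Finite K] (p : ℕ) [hp : Fact p.Prime] [CharP K p] (q h : ℕ) (θ : Kˣ)
    (hm : ∀ k : ℤ, ∃ c : F,
      ((θ ^ ((((q ^ h - 1) / (q - 1) : ℕ) : ℤ) * k) : Kˣ) : K) = algebraMap F K c)
    (hcard : θ ^ (((q ^ h - 1 : ℕ) : ℤ)) = 1)
    (b e : {b : ℤ // Admissible F h θ b}) (hbe : BoseEquiv F p q h θ b e) :
    ∃ (c v : F) (i : ℕ), c ≠ 0 ∧
      ((θ ^ b.1 : Kˣ) : K) = algebraMap F K c * (((θ ^ e.1 : Kˣ) : K)) ^ p ^ i +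
        algebraMap F K v := by
  have hinj : Function.Injective (algebraMap F K) := (algebraMap F K).injective
  haveI : ExpChar K p := ExpChar.prime hp.out
  unfold BoseEquiv at hbe
  induction hbe with
  | rel x y hxy =>
    rcases hxy with h1 | ⟨v, hv⟩ | ⟨i, hi⟩
    · obtain ⟨k, hk⟩ := h1.symm.dvd
      obtain ⟨c, hc⟩ := hm k
      refine ⟨c, 0, 0, ?_, ?_⟩
      · rintro rfl
        rw [map_zero] at hc
        exact (Units.ne_zero _) hc
      · have : x.1 = y.1 + (((q ^ h - 1) / (q - 1) : ℕ) : ℤ) * k := by linarith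
        rw [this, zpow_add, Units.val_mul, hc]
        simp [mul_comm]
    · refine ⟨1, v, 0, one_ne_zero, ?_⟩
      have : ((θ ^ x.1 : Kˣ) : K) = ((θ ^ y.1 : Kˣ) : K) + algebraMap F K v := by
        rw [← hv]; ring
      rw [this]; simp
    · refine ⟨1, 0, i, one_ne_zero, ?_⟩
      obtain ⟨k, hk⟩ := hi.symm.dvd
      have : x.1 = y.1 * (p : ℤ) ^ i + ((q ^ h - 1 : ℕ) : ℤ) * k := by linarith
      rw [this, zpow_add, zpow_mul, zpow_mul, hcard, one_zpow, mul_one]
      simp only [map_one, one_mul, map_zero, add_zero]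
      have h5 : ((p : ℤ) ^ i) = ((p ^ i : ℕ) : ℤ) := by push_cast; rfl
      rw [h5, zpow_natCast, Units.val_pow_eq_pow_val]
  | refl x => exact ⟨1, 0, 0, one_ne_zero, by simp⟩
  | symm x y _ ih =>
    obtain ⟨c, v, i, hc, hx⟩ := ih
    obtain ⟨j, hj⟩ := frob_inv (K := K) p i
    have hc' : algebraMap F K c ≠ 0 := by
      simpa using hc
    refine ⟨(c⁻¹) ^ p ^ j, -(c⁻¹ * v) ^ p ^ j, j, pow_ne_zero _ (inv_ne_zero hc), ?_⟩
    have h2 : ((θ ^ y.1 : Kˣ) : K) ^ p ^ i =
        algebraMap F K c⁻¹ * ((θ ^ x.1 : Kˣ) : K) - algebraMap F K (c⁻¹ * v) := by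
      rw [hx, map_inv₀, map_mul, map_inv₀]
      field_simp
      ring
    have h3 := hj ((θ ^ y.1 : Kˣ) : K)
    rw [h2, sub_pow_expChar_pow, mul_pow] at h3
    rw [← h3]
    simp [map_pow]
    ring
  | trans x y z _ _ ih1 ih2 =>
    obtain ⟨c, v, i, hc, hx⟩ := ih1
    obtain ⟨c', v', j, hc', hy⟩ := ih2
    refine ⟨c * c' ^ p ^ i, c * v' ^ p ^ i + v, j + i, mul_ne_zero hc (pow_ne_zero _ hc'), ?_⟩
    rw [hx, hy, add_pow_expChar_pow, mul_pow, ← pow_mul, ← pow_add]
    simp only [map_mul, map_add, map_pow]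
    ring

/-- normal form for the relation of the Singer sets -/
theorem singer_form [Finite K] (p : ℕ) [hp : Fact p.Prime] [CharP K p] (q h : ℕ) (θ : Kˣ)
    (hh : 1 ≤ h)
    (hm : ∀ k : ℤ, ∃ c : F,
      ((θ ^ ((((q ^ (h + 1) - 1) / (q - 1) : ℕ) : ℤ) * k) : Kˣ) : K) = algebraMap F K c)
    (hcard : θ ^ (((q ^ (h + 1) - 1 : ℕ) : ℤ)) = 1)
    (b e : {b : ℤ // Admissible F (h + 1) θ b}) (hbe : SingerEquiv F p q h θ b e) :
    ∃ (α β γ δ : F) (i : ℕ), α * δ - β * γ ≠ 0 ∧
      ((θ ^ b.1 : Kˣ) : K) *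
        (algebraMap F K γ * (((θ ^ e.1 : Kˣ) : K)) ^ p ^ i + algebraMap F K δ) =
      algebraMap F K α * (((θ ^ e.1 : Kˣ) : K)) ^ p ^ i + algebraMap F K β := by
  have hinj : Function.Injective (algebraMap F K) := (algebraMap F K).injective
  haveI : ExpChar K p := ExpChar.prime hp.out
  haveI : ExpChar F p := by
    haveI : CharP F p := (RingHom.charP_iff (algebraMap F K) hinj p).mpr inferInstance
    exact ExpChar.prime hp.out
  have notF : ∀ x : {b : ℤ // Admissible F (h + 1) θ b}, ∀ v : F,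
      ((θ ^ x.1 : Kˣ) : K) ≠ algebraMap F K v := by
    intro x v hv
    have hx := x.2
    unfold Admissible at hx
    rw [hv, minpoly.eq_X_sub_C, Polynomial.natDegree_X_sub_C] at hx
    omega
  unfold SingerEquiv at hbe
  induction hbe with
  | rel x y hxy =>
    rcases hxy with h1 | ⟨i, hi⟩ | ⟨v, hv⟩ | ⟨r, t, w, v, hrt, hv⟩
    · obtain ⟨k, hk⟩ := h1.symm.dvd
      obtain ⟨c, hc⟩ := hm k
      refine ⟨c, 0, 0, 1, 0, ?_, ?_⟩
      · have : c ≠ 0 := by
          rintro rfl
          rw [map_zero] at hc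
          exact (Units.ne_zero _) hc
        simpa using this
      · have : x.1 = y.1 + (((q ^ (h + 1) - 1) / (q - 1) : ℕ) : ℤ) * k := by linarith
        rw [this, zpow_add, Units.val_mul, hc]
        simp [mul_comm]
    · refine ⟨1, 0, 0, 1, i, by simp, ?_⟩
      obtain ⟨k, hk⟩ := hi.symm.dvd
      have : x.1 = y.1 * (p : ℤ) ^ i + ((q ^ (h + 1) - 1 : ℕ) : ℤ) * k := by linarith
      rw [this, zpow_add, zpow_mul, zpow_mul, hcard, one_zpow, mul_one]
      simp only [map_one, one_mul, map_zero, add_zero, zero_mul, zero_add, mul_one]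
      have h5 : ((p : ℤ) ^ i) = ((p ^ i : ℕ) : ℤ) := by push_cast; rfl
      rw [h5, zpow_natCast, Units.val_pow_eq_pow_val]
    · refine ⟨1, v, 0, 1, 0, by simp, ?_⟩
      have : ((θ ^ x.1 : Kˣ) : K) = ((θ ^ y.1 : Kˣ) : K) + algebraMap F K v := by
        rw [← hv]; ring
      rw [this]; simp
    · refine ⟨-w, v, t, r, 0, ?_, ?_⟩
      · intro hdet
        -- θ^x would lie in F
        have hmul : ((θ ^ x.1 : Kˣ) : K) *
            (algebraMap F K t * ((θ ^ y.1 : Kˣ) : K) + algebraMap F K r) =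
            algebraMap F K (-w) * ((θ ^ y.1 : Kˣ) : K) + algebraMap F K v := by
          rw [zpow_add, Units.val_mul] at hv
          rw [map_neg]
          linear_combination hv
        have hden : algebraMap F K t * ((θ ^ y.1 : Kˣ) : K) + algebraMap F K r ≠ 0 := by
          intro h0
          by_cases ht : t = 0
          · subst ht
            rw [map_zero, zero_mul, zero_add] at h0
            have : r = 0 := hinj (by rw [h0, map_zero])
            rcases hrt with h | h
            · exact h this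
            · exact h rfl
          · have ht' : algebraMap F K t ≠ 0 := by simpa using ht
            apply notF y (-r / t)
            rw [map_div₀, map_neg]
            field_simp
            linear_combination h0
        rcases hrt with hr | ht
        · -- multiply by r
          have hr' : algebraMap F K r ≠ 0 := by simpa using hr
          apply notF x (v / r)
          have hw : w = -(v * t) / r := by
            rw [eq_div_iff hr]
            linear_combination -hdet
          apply mul_right_cancel₀ hden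
          rw [hmul, map_div₀, hw]
          simp only [map_neg, map_div₀, map_mul]
          field_simp
        · have ht' : algebraMap F K t ≠ 0 := by simpa using ht
          apply notF x (-w / t)
          have hv' : v = -(w * r) / t := by
            rw [eq_div_iff ht]
            linear_combination -hdet
          apply mul_right_cancel₀ hden
          rw [hmul, hv']
          simp only [map_neg, map_div₀, map_mul]
          field_simp
          ring
      · rw [zpow_add, Units.val_mul] at hv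
        simp only [pow_zero, pow_one]
        rw [map_neg]
        linear_combination hv
  | refl x => exact ⟨1, 0, 0, 1, 0, by simp, by simp⟩
  | symm x y _ ih =>
    obtain ⟨a, b, c, d, i, hdet, hx⟩ := ih
    obtain ⟨j, hj⟩ := frob_inv (K := K) p i
    refine ⟨-d ^ p ^ j, b ^ p ^ j, c ^ p ^ j, -a ^ p ^ j, j, ?_, ?_⟩
    · have : -d ^ p ^ j * -a ^ p ^ j - b ^ p ^ j * c ^ p ^ j = (a * d - b * c) ^ p ^ j := by
        rw [sub_pow_expChar_pow, mul_pow, mul_pow]
        ring
      rw [this]
      exact pow_ne_zero _ hdet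
    · have h2 : ((θ ^ y.1 : Kˣ) : K) ^ p ^ i *
          (algebraMap F K c * ((θ ^ x.1 : Kˣ) : K) - algebraMap F K a) =
          algebraMap F K b - algebraMap F K d * ((θ ^ x.1 : Kˣ) : K) := by
        linear_combination hx
      have h3 := congrArg (fun z => z ^ p ^ j) h2
      simp only [mul_pow, sub_pow_expChar_pow, hj] at h3
      simp only [map_neg, map_pow]
      linear_combination h3
  | trans x y z _ _ ih1 ih2 =>
    obtain ⟨a, b, c, d, i, hdet, hx⟩ := ih1
    obtain ⟨a', b', c', d', j, hdet', hy⟩ := ih2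
    refine ⟨a * a' ^ p ^ i + b * c' ^ p ^ i, a * b' ^ p ^ i + b * d' ^ p ^ i,
      c * a' ^ p ^ i + d * c' ^ p ^ i, c * b' ^ p ^ i + d * d' ^ p ^ i, j + i, ?_, ?_⟩
    · have : (a * a' ^ p ^ i + b * c' ^ p ^ i) * (c * b' ^ p ^ i + d * d' ^ p ^ i) -
          (a * b' ^ p ^ i + b * d' ^ p ^ i) * (c * a' ^ p ^ i + d * c' ^ p ^ i) =
          (a * d - b * c) * (a' * d' - b' * c') ^ p ^ i := by
        rw [sub_pow_expChar_pow, mul_pow, mul_pow]
        ring
      rw [this]
      exact mul_ne_zero hdet (pow_ne_zero _ hdet')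
    · have h3 := congrArg (fun z => z ^ p ^ i) hy
      simp only [mul_pow, add_pow_expChar_pow, ← pow_mul, ← pow_add] at h3
      simp only [map_mul, map_add, map_pow]
      linear_combination
        (algebraMap F K c' ^ p ^ i * ((θ ^ z.1 : Kˣ) : K) ^ p ^ (j + i) +
          algebraMap F K d' ^ p ^ i) * hx +
        (algebraMap F K a - algebraMap F K c * ((θ ^ x.1 : Kˣ) : K)) * h3

end Pool.Agent.H5.BoseSinger
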