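import Pool.Agent.H5.BoseInv

namespace Pool.Agent.H5.BoseSinger

theorem chain729 (K : Type) [Field K] (t : K) (hp : (3 : K) = 0) (hf : t ^ 6 = 2 * t + 1) :
    t ^ 635 = t ^ 37 + 1 ∧ t ^ 434 = t ^ 37 + 2 ∧ t ^ 717 = t ^ 67 + 1 ∧
      t ^ 462 = t ^ 67 + 2 ∧ t ^ 364 = 2 ∧ t ^ 728 = 1 ∧
      t ^ 364 ≠ 1 ∧ t ^ 104 ≠ 1 ∧ t ^ 56 ≠ 1 := by
  have e4 : t ^ 4 = t ^ 4 := by ring
  have e8 : t ^ 8 = 2 * t ^ 3 + t ^ 2 := by
    rw [show t ^ 8 = (t ^ 4) ^ 2 by ring, e4]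
    linear_combination (t ^ 2) * hf + (0) * hp
  have e9 : t ^ 9 = 2 * t ^ 4 + t ^ 3 := by
    rw [show t ^ 9 = t ^ 8 * t by ring, e8]
    linear_combination (0) * hf + (0) * hp
  have e18 : t ^ 18 = 2 * t ^ 3 + 1 := by
    rw [show t ^ 18 = (t ^ 9) ^ 2 by ring, e9]
    linear_combination (4 * t ^ 2 + 4 * t + 1) * hf + (2 * t ^ 3 + 4 * t ^ 2 + 2 * t) * hp
  have e36 : t ^ 36 = t ^ 3 + 2 * t + 2 := by
    rw [show t ^ 36 = (t ^ 18) ^ 2 by ring, e18]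
    linear_combination (4) * hf + (t ^ 3 + 2 * t + 1) * hp
  have e37 : t ^ 37 = t ^ 4 + 2 * t ^ 2 + 2 * t := by
    rw [show t ^ 37 = t ^ 36 * t by ring, e36]
    linear_combination (0) * hf + (0) * hp
  have e19 : t ^ 19 = 2 * t ^ 4 + t := by
    rw [show t ^ 19 = t ^ 18 * t by ring, e18]
    linear_combination (0) * hf + (0) * hp
  have e38 : t ^ 38 = t ^ 5 + 2 * t ^ 3 + 2 * t ^ 2 := by
    rw [show t ^ 38 = (t ^ 19) ^ 2 by ring, e19]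
    linear_combination (4 * t ^ 2) * hf + (t ^ 5 + 2 * t ^ 3 + t ^ 2) * hp
  have e39 : t ^ 39 = 2 * t ^ 4 + 2 * t ^ 3 + 2 * t + 1 := by
    rw [show t ^ 39 = t ^ 38 * t by ring, e38]
    linear_combination (1) * hf + (0) * hp
  have e78 : t ^ 78 = 2 * t ^ 5 + 2 * t + 2 := by
    rw [show t ^ 78 = (t ^ 39) ^ 2 by ring, e39]
    linear_combination (4 * t ^ 2 + 8 * t + 4) * hf + (2 * t ^ 5 + 4 * t ^ 4 + 4 * t ^ 3 + 8 * t ^ 2 + 6 * t + 1) * hp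
  have e79 : t ^ 79 = 2 * t ^ 2 + 2 := by
    rw [show t ^ 79 = t ^ 78 * t by ring, e78]
    linear_combination (2) * hf + (2 * t) * hp
  have e158 : t ^ 158 = t ^ 4 + 2 * t ^ 2 + 1 := by
    rw [show t ^ 158 = (t ^ 79) ^ 2 by ring, e79]
    linear_combination (0) * hf + (t ^ 4 + 2 * t ^ 2 + 1) * hp
  have e316 : t ^ 316 = 2 * t ^ 3 + 2 * t ^ 2 + 2 * t + 2 := by
    rw [show t ^ 316 = (t ^ 158) ^ 2 by ring, e158]
    linear_combination (t ^ 2 + 4) * hf + (2 * t ^ 4 + t ^ 2 + 2 * t + 1) * hp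
  have e317 : t ^ 317 = 2 * t ^ 4 + 2 * t ^ 3 + 2 * t ^ 2 + 2 * t := by
    rw [show t ^ 317 = t ^ 316 * t by ring, e316]
    linear_combination (0) * hf + (0) * hp
  have e634 : t ^ 634 = t ^ 5 + t ^ 3 + 2 * t := by
    rw [show t ^ 634 = (t ^ 317) ^ 2 by ring, e317]
    linear_combination (4 * t ^ 2 + 8 * t + 12) * hf + (5 * t ^ 5 + 4 * t ^ 4 + 5 * t ^ 3 + 8 * t ^ 2 + 10 * t + 4) * hp
  have e635 : t ^ 635 = t ^ 4 + 2 * t ^ 2 + 2 * t + 1 := by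
    rw [show t ^ 635 = t ^ 634 * t by ring, e634]
    linear_combination (1) * hf + (0) * hp
  have e6 : t ^ 6 = 2 * t + 1 := by linear_combination (1) * hf + (0) * hp
  have e12 : t ^ 12 = t ^ 2 + t + 1 := by
    rw [show t ^ 12 = (t ^ 6) ^ 2 by ring, e6]
    linear_combination (0) * hf + (t ^ 2 + t) * hp
  have e13 : t ^ 13 = t ^ 3 + t ^ 2 + t := by
    rw [show t ^ 13 = t ^ 12 * t by ring, e12]
    linear_combination (0) * hf + (0) * hp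
  have e26 : t ^ 26 = 2 * t ^ 5 + 2 * t ^ 3 + t ^ 2 + 2 * t + 1 := by
    rw [show t ^ 26 = (t ^ 13) ^ 2 by ring, e13]
    linear_combination (1) * hf + (t ^ 4) * hp
  have e27 : t ^ 27 = 2 * t ^ 4 + t ^ 3 + 2 * t ^ 2 + 2 * t + 2 := by
    rw [show t ^ 27 = t ^ 26 * t by ring, e26]
    linear_combination (2) * hf + (t) * hp
  have e54 : t ^ 54 = t ^ 4 + 2 * t ^ 3 + 1 := by
    rw [show t ^ 54 = (t ^ 27) ^ 2 by ring, e27]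
    linear_combination (4 * t ^ 2 + 4 * t + 9) * hf + (4 * t ^ 5 + 5 * t ^ 4 + 6 * t ^ 3 + 8 * t ^ 2 + 10 * t + 4) * hp
  have e108 : t ^ 108 = 2 * t ^ 4 + 2 := by
    rw [show t ^ 108 = (t ^ 54) ^ 2 by ring, e54]
    linear_combination (t ^ 2 + 4 * t + 4) * hf + (2 * t ^ 3 + 3 * t ^ 2 + 4 * t + 1) * hp
  have e216 : t ^ 216 = 2 * t ^ 4 + 2 * t ^ 3 + t ^ 2 + 1 := by
    rw [show t ^ 216 = (t ^ 108) ^ 2 by ring, e108]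
    linear_combination (4 * t ^ 2) * hf + (2 * t ^ 4 + 2 * t ^ 3 + t ^ 2 + 1) * hp
  have e217 : t ^ 217 = 2 * t ^ 5 + 2 * t ^ 4 + t ^ 3 + t := by
    rw [show t ^ 217 = t ^ 216 * t by ring, e216]
    linear_combination (0) * hf + (0) * hp
  have e434 : t ^ 434 = t ^ 4 + 2 * t ^ 2 + 2 * t + 2 := by
    rw [show t ^ 434 = (t ^ 217) ^ 2 by ring, e217]
    linear_combination (4 * t ^ 4 + 8 * t ^ 3 + 8 * t ^ 2 + 4 * t + 5) * hf + (4 * t ^ 5 + 7 * t ^ 4 + 8 * t ^ 3 + 5 * t ^ 2 + 4 * t + 1) * hp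
  have e16 : t ^ 16 = t ^ 5 + t ^ 4 + 2 * t + 1 := by
    rw [show t ^ 16 = (t ^ 8) ^ 2 by ring, e8]
    linear_combination (4) * hf + (t ^ 5 + 2 * t + 1) * hp
  have e32 : t ^ 32 = 2 * t ^ 5 + t ^ 4 + t ^ 3 + 2 * t ^ 2 + 2 := by
    rw [show t ^ 32 = (t ^ 16) ^ 2 by ring, e16]
    linear_combination (t ^ 4 + 2 * t ^ 3 + t ^ 2 + 4) * hf + (2 * t ^ 5 + 2 * t ^ 4 + t ^ 3 + t ^ 2 + 4 * t + 1) * hp
  have e33 : t ^ 33 = t ^ 5 + t ^ 4 + 2 * t ^ 3 + 2 := by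
    rw [show t ^ 33 = t ^ 32 * t by ring, e32]
    linear_combination (2) * hf + (2 * t) * hp
  have e66 : t ^ 66 = 2 * t ^ 3 + t ^ 2 + 2 := by
    rw [show t ^ 66 = (t ^ 33) ^ 2 by ring, e33]
    linear_combination (t ^ 4 + 2 * t ^ 3 + 5 * t ^ 2 + 4 * t + 4) * hf + (2 * t ^ 5 + 3 * t ^ 4 + 6 * t ^ 3 + 4 * t ^ 2 + 4 * t + 2) * hp
  have e67 : t ^ 67 = 2 * t ^ 4 + t ^ 3 + 2 * t := by
    rw [show t ^ 67 = t ^ 66 * t by ring, e66]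
    linear_combination (0) * hf + (0) * hp
  have e5 : t ^ 5 = t ^ 5 := by ring
  have e10 : t ^ 10 = 2 * t ^ 5 + t ^ 4 := by
    rw [show t ^ 10 = (t ^ 5) ^ 2 by ring, e5]
    linear_combination (t ^ 4) * hf + (0) * hp
  have e11 : t ^ 11 = t ^ 5 + t + 2 := by
    rw [show t ^ 11 = t ^ 10 * t by ring, e10]
    linear_combination (2) * hf + (t) * hp
  have e22 : t ^ 22 = t ^ 4 + t ^ 2 + 2 * t := by
    rw [show t ^ 22 = (t ^ 11) ^ 2 by ring, e11]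
    linear_combination (t ^ 4 + 2) * hf + (2 * t ^ 5 + 2 * t + 2) * hp
  have e44 : t ^ 44 = t ^ 5 + t ^ 4 + 2 * t ^ 2 + t + 2 := by
    rw [show t ^ 44 = (t ^ 22) ^ 2 by ring, e22]
    linear_combination (t ^ 2 + 2) * hf + (t ^ 5 + 2 * t ^ 3 + t ^ 2 + t) * hp
  have e88 : t ^ 88 = 2 * t ^ 5 + t ^ 4 + 2 * t ^ 3 + 2 * t + 1 := by
    rw [show t ^ 88 = (t ^ 44) ^ 2 by ring, e44]
    linear_combination (t ^ 4 + 2 * t ^ 3 + t ^ 2 + 4 * t + 6) * hf + (2 * t ^ 5 + 4 * t ^ 4 + 2 * t ^ 3 + 6 * t ^ 2 + 6 * t + 3) * hp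
  have e89 : t ^ 89 = t ^ 5 + 2 * t ^ 4 + 2 * t ^ 2 + 2 * t + 2 := by
    rw [show t ^ 89 = t ^ 88 * t by ring, e88]
    linear_combination (2) * hf + (t) * hp
  have e178 : t ^ 178 = 2 * t ^ 5 + 2 * t ^ 3 + 1 := by
    rw [show t ^ 178 = (t ^ 89) ^ 2 by ring, e89]
    linear_combination (t ^ 4 + 4 * t ^ 3 + 4 * t ^ 2 + 4 * t + 12) * hf + (4 * t ^ 5 + 7 * t ^ 4 + 6 * t ^ 3 + 8 * t ^ 2 + 12 * t + 5) * hp
  have e179 : t ^ 179 = 2 * t ^ 4 + 2 * t + 2 := by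
    rw [show t ^ 179 = t ^ 178 * t by ring, e178]
    linear_combination (2) * hf + (t) * hp
  have e358 : t ^ 358 = 2 * t ^ 5 + 2 * t ^ 4 + 2 * t ^ 3 + 2 * t ^ 2 + 2 * t + 1 := by
    rw [show t ^ 358 = (t ^ 179) ^ 2 by ring, e179]
    linear_combination (4 * t ^ 2) * hf + (2 * t ^ 5 + 2 * t ^ 4 + 2 * t ^ 3 + 2 * t ^ 2 + 2 * t + 1) * hp
  have e716 : t ^ 716 = t ^ 5 + 2 * t ^ 3 + t ^ 2 := by
    rw [show t ^ 716 = (t ^ 358) ^ 2 by ring, e358]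
    linear_combination (4 * t ^ 4 + 8 * t ^ 3 + 12 * t ^ 2 + 16 * t + 20) * hf + (9 * t ^ 5 + 12 * t ^ 4 + 14 * t ^ 3 + 17 * t ^ 2 + 20 * t + 7) * hp
  have e717 : t ^ 717 = 2 * t ^ 4 + t ^ 3 + 2 * t + 1 := by
    rw [show t ^ 717 = t ^ 716 * t by ring, e716]
    linear_combination (1) * hf + (0) * hp
  have e7 : t ^ 7 = 2 * t ^ 2 + t := by
    rw [show t ^ 7 = t ^ 6 * t by ring, e6]
    linear_combination (0) * hf + (0) * hp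
  have e14 : t ^ 14 = t ^ 4 + t ^ 3 + t ^ 2 := by
    rw [show t ^ 14 = (t ^ 7) ^ 2 by ring, e7]
    linear_combination (0) * hf + (t ^ 4 + t ^ 3) * hp
  have e28 : t ^ 28 = 2 * t ^ 5 + t ^ 4 + 2 * t ^ 3 + 2 * t ^ 2 + 2 * t := by
    rw [show t ^ 28 = (t ^ 14) ^ 2 by ring, e14]
    linear_combination (t ^ 2 + 2 * t + 3) * hf + (t ^ 2 + 2 * t + 1) * hp
  have e56 : t ^ 56 = 2 * t ^ 5 + t ^ 2 + 2 * t + 1 := by
    rw [show t ^ 56 = (t ^ 28) ^ 2 by ring, e28]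
    linear_combination (4 * t ^ 4 + 4 * t ^ 3 + 9 * t ^ 2 + 12 * t + 16) * hf + (6 * t ^ 5 + 8 * t ^ 4 + 10 * t ^ 3 + 12 * t ^ 2 + 14 * t + 5) * hp
  have e57 : t ^ 57 = t ^ 3 + 2 * t ^ 2 + 2 * t + 2 := by
    rw [show t ^ 57 = t ^ 56 * t by ring, e56]
    linear_combination (2) * hf + (t) * hp
  have e114 : t ^ 114 = t ^ 5 + 2 * t ^ 4 + t + 2 := by
    rw [show t ^ 114 = (t ^ 57) ^ 2 by ring, e57]
    linear_combination (1) * hf + (t ^ 5 + 2 * t ^ 4 + 4 * t ^ 3 + 4 * t ^ 2 + 3 * t + 1) * hp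
  have e115 : t ^ 115 = 2 * t ^ 5 + t ^ 2 + t + 1 := by
    rw [show t ^ 115 = t ^ 114 * t by ring, e114]
    linear_combination (1) * hf + (t) * hp
  have e230 : t ^ 230 = 2 * t ^ 4 + 2 * t ^ 3 + 2 * t ^ 2 + 2 * t + 2 := by
    rw [show t ^ 230 = (t ^ 115) ^ 2 by ring, e115]
    linear_combination (4 * t ^ 4 + 4 * t + 4) * hf + (4 * t ^ 5 + t ^ 4 + 3 * t ^ 2 + 4 * t + 1) * hp
  have e231 : t ^ 231 = 2 * t ^ 5 + 2 * t ^ 4 + 2 * t ^ 3 + 2 * t ^ 2 + 2 * t := by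
    rw [show t ^ 231 = t ^ 230 * t by ring, e230]
    linear_combination (0) * hf + (0) * hp
  have e462 : t ^ 462 = 2 * t ^ 4 + t ^ 3 + 2 * t + 2 := by
    rw [show t ^ 462 = (t ^ 231) ^ 2 by ring, e231]
    linear_combination (4 * t ^ 4 + 8 * t ^ 3 + 12 * t ^ 2 + 16 * t + 20) * hf + (8 * t ^ 5 + 10 * t ^ 4 + 13 * t ^ 3 + 16 * t ^ 2 + 18 * t + 6) * hp
  have e45 : t ^ 45 = t ^ 5 + 2 * t ^ 3 + t ^ 2 + t + 1 := by
    rw [show t ^ 45 = t ^ 44 * t by ring, e44]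
    linear_combination (1) * hf + (t) * hp
  have e90 : t ^ 90 = 2 * t ^ 5 + 2 * t ^ 3 + 2 * t ^ 2 + t + 1 := by
    rw [show t ^ 90 = (t ^ 45) ^ 2 by ring, e45]
    linear_combination (t ^ 4 + 4 * t ^ 2 + 2 * t + 6) * hf + (2 * t ^ 5 + 2 * t ^ 4 + 4 * t ^ 3 + 3 * t ^ 2 + 5 * t + 2) * hp
  have e91 : t ^ 91 = 2 * t ^ 4 + 2 * t ^ 3 + t ^ 2 + 2 * t + 2 := by
    rw [show t ^ 91 = t ^ 90 * t by ring, e90]
    linear_combination (2) * hf + (t) * hp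
  have e182 : t ^ 182 = 2 * t ^ 4 + 2 * t ^ 3 + t ^ 2 + 2 * t := by
    rw [show t ^ 182 = (t ^ 91) ^ 2 by ring, e91]
    linear_combination (4 * t ^ 2 + 8 * t + 8) * hf + (4 * t ^ 5 + 5 * t ^ 4 + 6 * t ^ 3 + 9 * t ^ 2 + 10 * t + 4) * hp
  have e364 : t ^ 364 = 2 := by
    rw [show t ^ 364 = (t ^ 182) ^ 2 by ring, e182]
    linear_combination (4 * t ^ 2 + 8 * t + 8) * hf + (4 * t ^ 5 + 3 * t ^ 4 + 4 * t ^ 3 + 8 * t ^ 2 + 8 * t + 2) * hp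
  have e728 : t ^ 728 = 1 := by
    rw [show t ^ 728 = (t ^ 364) ^ 2 by ring, e364]
    linear_combination (0) * hf + (1) * hp
  have n364 : t ^ 364 ≠ 1 := by
    intro h1
    rw [e364] at h1
    apply one_ne_zero (α := K)
    linear_combination (1) * h1 + (0) * hf + (0) * hp
  have e52 : t ^ 52 = t ^ 5 + t ^ 4 + t ^ 2 + 2 * t + 1 := by
    rw [show t ^ 52 = (t ^ 26) ^ 2 by ring, e26]
    linear_combination (4 * t ^ 4 + 8 * t ^ 2 + 4 * t + 12) * hf + (5 * t ^ 5 + 4 * t ^ 4 + 8 * t ^ 3 + 7 * t ^ 2 + 10 * t + 4) * hp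
  have e104 : t ^ 104 = 2 * t ^ 5 + 2 * t ^ 4 + 2 * t ^ 3 + 2 * t ^ 2 + 1 := by
    rw [show t ^ 104 = (t ^ 52) ^ 2 by ring, e52]
    linear_combination (t ^ 4 + 2 * t ^ 3 + t ^ 2 + 2 * t + 6) * hf + (2 * t ^ 5 + 2 * t ^ 4 + 2 * t ^ 3 + 3 * t ^ 2 + 6 * t + 2) * hp
  have n104 : t ^ 104 ≠ 1 := by
    intro h1
    rw [e104] at h1
    apply one_ne_zero (α := K)
    linear_combination (t ^ 4 + 2 * t ^ 3 + 2 * t ^ 2 + 2) * h1 + (-2 * t ^ 3 - 6 * t ^ 2 - 10 * t - 10) * hf + (-4 * t ^ 5 - 4 * t ^ 4 - 6 * t ^ 3 - 10 * t ^ 2 - 10 * t - 3) * hp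
  have n56 : t ^ 56 ≠ 1 := by
    intro h1
    rw [e56] at h1
    apply one_ne_zero (α := K)
    linear_combination (t ^ 4 + 2 * t ^ 3 + t ^ 2 + 1) * h1 + (-2 * t ^ 3 - 4 * t ^ 2 - 2 * t - 1) * hf + (-2 * t ^ 5 - 3 * t ^ 4 - 4 * t ^ 3 - 3 * t ^ 2 - 2 * t) * hp
  refine ⟨?_, ?_, ?_, ?_, e364, e728, n364, n104, n56⟩
  · rw [e635, e37]
  · rw [e434, e37]
  · rw [e717, e67]
  · rw [e462, e67]

end Pool.Agent.H5.BoseSinger
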