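import Mathlib

namespace Pool.Agent.H5.BoseSinger

open Polynomial

/-- If every root of `f` (degree `n`) in a field extension of `ZMod p` has multiplicative order
`p^n-1`, there is a field with `p^n` elements generated multiplicatively by a root of `f`. -/
theorem exists_model (p n : ℕ) [Fact p.Prime] (hn : 0 < n) (f : (ZMod p)[X])
    (hf : f.natDegree = n)
    (H : ∀ (K : Type) [Field K] [Algebra (ZMod p) K] (t : Kˣ), aeval (t : K) f = 0 →
      orderOf t = p ^ n - 1) (h0 : f.coeff 0 ≠ 0) :
    ∃ (K : Type) (_ : Field K) (_ : Algebra (ZMod p) K) (θ : Kˣ),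
      Module.finrank (ZMod p) K = n ∧ aeval (θ : K) f = 0 ∧ orderOf θ = p ^ n - 1 ∧
      Finite K ∧ ∀ x : Kˣ, x ∈ Subgroup.zpowers θ := by
  have hf0 : f ≠ 0 := by
    rintro rfl; simp at hf; omega
  have hfu : ¬ IsUnit f := by
    intro hu
    have := natDegree_eq_zero_of_isUnit hu
    omega
  have hfnd : f.natDegree ≠ 0 := by omega
  set g := factor f with hg
  haveI hirr : Fact (Irreducible g) := fact_irreducible_factor f
  have hdvd : g ∣ f := factor_dvd_of_natDegree_ne_zero hfnd
  have hg0 : g ≠ 0 := hirr.out.ne_zero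
  let K := AdjoinRoot g
  have hroot : aeval (AdjoinRoot.root g : K) f = 0 := by
    obtain ⟨k, hk⟩ := hdvd
    rw [hk, map_mul]
    have : aeval (AdjoinRoot.root g : K) g = 0 := by
      rw [AdjoinRoot.aeval_eq, AdjoinRoot.mk_self]
    rw [this, zero_mul]
  have hne : (AdjoinRoot.root g : K) ≠ 0 := by
    intro h
    rw [h] at hroot
    rw [← coeff_zero_eq_aeval_zero'] at hroot
    exact h0 (by simpa using hroot)
  have hfr : Module.finrank (ZMod p) K = g.natDegree := by
    exact (AdjoinRoot.powerBasis hg0).finrank.trans (AdjoinRoot.powerBasis_dim hg0)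
  have hfin' : Module.Finite (ZMod p) K := by
    exact (AdjoinRoot.powerBasis hg0).finite
  have hfinK : Finite K := Module.finite_of_finite (ZMod p)
  have hcard : Nat.card K = p ^ g.natDegree := by
    rw [Module.natCard_eq_pow_finrank (K := ZMod p), hfr, Nat.card_zmod]
  have hle : g.natDegree ≤ n := hf ▸ natDegree_le_of_dvd hdvd hf0
  let θ : Kˣ := Units.mk0 (AdjoinRoot.root g : K) hne
  have hord : orderOf θ = p ^ n - 1 := H K θ hroot
  have hcardU : Nat.card Kˣ = p ^ g.natDegree - 1 := by
    rw [Nat.card_units, hcard]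
  have hle2 : p ^ n - 1 ≤ p ^ g.natDegree - 1 := by
    rw [← hord, ← hcardU]
    exact orderOf_le_card
  have hp2 := (Fact.out : p.Prime).two_le
  have hpn : 1 ≤ p ^ n := Nat.one_le_pow _ _ (by omega)
  have hpg : 1 ≤ p ^ g.natDegree := Nat.one_le_pow _ _ (by omega)
  have hle3 : p ^ n ≤ p ^ g.natDegree := by omega
  have hge : n ≤ g.natDegree := (Nat.pow_le_pow_iff_right (by omega)).mp hle3
  have heq : g.natDegree = n := le_antisymm hle hge
  refine ⟨K, inferInstance, inferInstance, θ, by rw [hfr, heq], hroot, hord, hfinK, ?_⟩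
  intro x
  have hz : Subgroup.zpowers θ = ⊤ := by
    apply Subgroup.eq_top_of_card_eq
    rw [Nat.card_zpowers, hord, hcardU, heq]
  rw [hz]; exact Subgroup.mem_top x

end Pool.Agent.H5.BoseSinger
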