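import Pool.Agent.H5.BoseInv

namespace Pool.Agent.H5.BoseSinger

theorem chain1024 (K : Type) [Field K] (t : K) (hp : (2 : K) = 0) (hf : t ^ 10 = t ^ 3 + 1) :
    t ^ 758 = t ^ 31 + 1 ∧ t ^ 620 = t ^ 277 + 1 ∧ t ^ 1023 = 1 ∧
      t ^ 341 ≠ 1 ∧ t ^ 93 ≠ 1 ∧ t ^ 33 ≠ 1 := by
  have e7 : t ^ 7 = t ^ 7 := by ring
  have e14 : t ^ 14 = t ^ 7 + t ^ 4 := by
    rw [show t ^ 14 = (t ^ 7) ^ 2 by ring, e7]
    linear_combination (t ^ 4) * hf + (0) * hp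
  have e15 : t ^ 15 = t ^ 8 + t ^ 5 := by
    rw [show t ^ 15 = t ^ 14 * t by ring, e14]
    linear_combination (0) * hf + (0) * hp
  have e30 : t ^ 30 = t ^ 9 + t ^ 6 + t ^ 3 + 1 := by
    rw [show t ^ 30 = (t ^ 15) ^ 2 by ring, e15]
    linear_combination (t ^ 6 + 2 * t ^ 3 + 1) * hf + (t ^ 6 + t ^ 3) * hp
  have e31 : t ^ 31 = t ^ 7 + t ^ 4 + t ^ 3 + t + 1 := by
    rw [show t ^ 31 = t ^ 30 * t by ring, e30]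
    linear_combination (1) * hf + (0) * hp
  have e10 : t ^ 10 = t ^ 3 + 1 := by linear_combination (1) * hf + (0) * hp
  have e11 : t ^ 11 = t ^ 4 + t := by
    rw [show t ^ 11 = t ^ 10 * t by ring, e10]
    linear_combination (0) * hf + (0) * hp
  have e22 : t ^ 22 = t ^ 8 + t ^ 2 := by
    rw [show t ^ 22 = (t ^ 11) ^ 2 by ring, e11]
    linear_combination (0) * hf + (t ^ 5) * hp
  have e23 : t ^ 23 = t ^ 9 + t ^ 3 := by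
    rw [show t ^ 23 = t ^ 22 * t by ring, e22]
    linear_combination (0) * hf + (0) * hp
  have e46 : t ^ 46 = t ^ 8 + t ^ 6 + t ^ 4 + t := by
    rw [show t ^ 46 = (t ^ 23) ^ 2 by ring, e23]
    linear_combination (t ^ 8 + 2 * t ^ 2 + t) * hf + (t ^ 5 + t ^ 2) * hp
  have e47 : t ^ 47 = t ^ 9 + t ^ 7 + t ^ 5 + t ^ 2 := by
    rw [show t ^ 47 = t ^ 46 * t by ring, e46]
    linear_combination (0) * hf + (0) * hp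
  have e94 : t ^ 94 = t ^ 8 + t ^ 7 + t ^ 4 + t ^ 3 + t + 1 := by
    rw [show t ^ 94 = (t ^ 47) ^ 2 by ring, e47]
    linear_combination (t ^ 8 + 2 * t ^ 6 + 3 * t ^ 4 + 2 * t ^ 2 + 3 * t + 1) * hf + (2 * t ^ 9 + 2 * t ^ 7 + t ^ 6 + t ^ 5 + 3 * t ^ 4 + t ^ 2 + t) * hp
  have e188 : t ^ 188 = t ^ 9 + t ^ 8 + t ^ 7 + t ^ 4 + t ^ 2 + 1 := by
    rw [show t ^ 188 = (t ^ 94) ^ 2 by ring, e94]
    linear_combination (t ^ 6 + 2 * t ^ 5 + t ^ 4 + 2 * t ^ 2 + 4 * t + 2) * hf + (t ^ 9 + 3 * t ^ 8 + 2 * t ^ 7 + t ^ 6 + 3 * t ^ 5 + 4 * t ^ 4 + 2 * t ^ 3 + t ^ 2 + 3 * t + 1) * hp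
  have e189 : t ^ 189 = t ^ 9 + t ^ 8 + t ^ 5 + t + 1 := by
    rw [show t ^ 189 = t ^ 188 * t by ring, e188]
    linear_combination (1) * hf + (t ^ 3) * hp
  have e378 : t ^ 378 = t ^ 9 + t ^ 8 + t ^ 6 + t ^ 4 + t ^ 3 + t ^ 2 + t := by
    rw [show t ^ 378 = (t ^ 189) ^ 2 by ring, e189]
    linear_combination (t ^ 8 + 2 * t ^ 7 + t ^ 6 + 2 * t ^ 4 + 2 * t ^ 3 + t + 5) * hf + (2 * t ^ 9 + t ^ 8 + 2 * t ^ 7 + 2 * t ^ 6 + t ^ 5 + t ^ 4 + 3 * t ^ 3 + t + 3) * hp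
  have e379 : t ^ 379 = t ^ 9 + t ^ 7 + t ^ 5 + t ^ 4 + t ^ 2 + 1 := by
    rw [show t ^ 379 = t ^ 378 * t by ring, e378]
    linear_combination (1) * hf + (t ^ 3) * hp
  have e758 : t ^ 758 = t ^ 7 + t ^ 4 + t ^ 3 + t := by
    rw [show t ^ 758 = (t ^ 379) ^ 2 by ring, e379]
    linear_combination (t ^ 8 + 2 * t ^ 6 + 3 * t ^ 4 + 2 * t ^ 3 + 2 * t ^ 2 + 5 * t + 1) * hf + (4 * t ^ 9 + t ^ 8 + 3 * t ^ 7 + 3 * t ^ 6 + 2 * t ^ 5 + 5 * t ^ 4 + t ^ 3 + 2 * t ^ 2 + 2 * t + 1) * hp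
  have e8 : t ^ 8 = t ^ 8 := by ring
  have e16 : t ^ 16 = t ^ 9 + t ^ 6 := by
    rw [show t ^ 16 = (t ^ 8) ^ 2 by ring, e8]
    linear_combination (t ^ 6) * hf + (0) * hp
  have e17 : t ^ 17 = t ^ 7 + t ^ 3 + 1 := by
    rw [show t ^ 17 = t ^ 16 * t by ring, e16]
    linear_combination (1) * hf + (0) * hp
  have e34 : t ^ 34 = t ^ 7 + t ^ 6 + t ^ 4 + 1 := by
    rw [show t ^ 34 = (t ^ 17) ^ 2 by ring, e17]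
    linear_combination (t ^ 4 + 2) * hf + (t ^ 7 + 2 * t ^ 3 + 1) * hp
  have e68 : t ^ 68 = t ^ 8 + t ^ 7 + t ^ 5 + t ^ 4 + t ^ 2 + 1 := by
    rw [show t ^ 68 = (t ^ 34) ^ 2 by ring, e34]
    linear_combination (t ^ 4 + 2 * t ^ 3 + t ^ 2 + 2 * t + 2) * hf + (t ^ 7 + 2 * t ^ 6 + 2 * t ^ 4 + 2 * t ^ 3 + t + 1) * hp
  have e69 : t ^ 69 = t ^ 9 + t ^ 8 + t ^ 6 + t ^ 5 + t ^ 3 + t := by
    rw [show t ^ 69 = t ^ 68 * t by ring, e68]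
    linear_combination (0) * hf + (0) * hp
  have e138 : t ^ 138 = t ^ 9 + t ^ 8 + t ^ 5 + t ^ 4 + t ^ 3 + t + 1 := by
    rw [show t ^ 138 = (t ^ 69) ^ 2 by ring, e69]
    linear_combination (t ^ 8 + 2 * t ^ 7 + t ^ 6 + 2 * t ^ 5 + 4 * t ^ 4 + 2 * t ^ 3 + 3 * t ^ 2 + 5 * t + 5) * hf + (2 * t ^ 9 + 2 * t ^ 8 + 4 * t ^ 7 + 3 * t ^ 6 + 2 * t ^ 5 + 5 * t ^ 4 + 3 * t ^ 3 + 2 * t ^ 2 + 2 * t + 2) * hp
  have e276 : t ^ 276 = t ^ 9 + t ^ 4 + t ^ 3 + t ^ 2 + t := by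
    rw [show t ^ 276 = (t ^ 138) ^ 2 by ring, e138]
    linear_combination (t ^ 8 + 2 * t ^ 7 + t ^ 6 + 2 * t ^ 4 + 4 * t ^ 3 + 4 * t ^ 2 + 3 * t + 5) * hf + (3 * t ^ 9 + 3 * t ^ 8 + 3 * t ^ 7 + 4 * t ^ 6 + 4 * t ^ 5 + 4 * t ^ 4 + 5 * t ^ 3 + 2 * t ^ 2 + 2 * t + 3) * hp
  have e277 : t ^ 277 = t ^ 5 + t ^ 4 + t ^ 2 + 1 := by
    rw [show t ^ 277 = t ^ 276 * t by ring, e276]
    linear_combination (1) * hf + (t ^ 3) * hp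
  have e9 : t ^ 9 = t ^ 9 := by ring
  have e18 : t ^ 18 = t ^ 8 + t ^ 4 + t := by
    rw [show t ^ 18 = (t ^ 9) ^ 2 by ring, e9]
    linear_combination (t ^ 8 + t) * hf + (0) * hp
  have e19 : t ^ 19 = t ^ 9 + t ^ 5 + t ^ 2 := by
    rw [show t ^ 19 = t ^ 18 * t by ring, e18]
    linear_combination (0) * hf + (0) * hp
  have e38 : t ^ 38 = t ^ 8 + t ^ 3 + t + 1 := by
    rw [show t ^ 38 = (t ^ 19) ^ 2 by ring, e19]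
    linear_combination (t ^ 8 + 2 * t ^ 4 + 3 * t + 1) * hf + (2 * t ^ 7 + 3 * t ^ 4 + t) * hp
  have e76 : t ^ 76 = t ^ 9 + t ^ 2 + 1 := by
    rw [show t ^ 76 = (t ^ 38) ^ 2 by ring, e38]
    linear_combination (t ^ 6 + 2 * t) * hf + (t ^ 9 + t ^ 8 + t ^ 6 + 2 * t ^ 4 + t ^ 3 + 2 * t) * hp
  have e77 : t ^ 77 = t + 1 := by
    rw [show t ^ 77 = t ^ 76 * t by ring, e76]
    linear_combination (1) * hf + (t ^ 3) * hp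
  have e154 : t ^ 154 = t ^ 2 + 1 := by
    rw [show t ^ 154 = (t ^ 77) ^ 2 by ring, e77]
    linear_combination (0) * hf + (t) * hp
  have e155 : t ^ 155 = t ^ 3 + t := by
    rw [show t ^ 155 = t ^ 154 * t by ring, e154]
    linear_combination (0) * hf + (0) * hp
  have e310 : t ^ 310 = t ^ 6 + t ^ 2 := by
    rw [show t ^ 310 = (t ^ 155) ^ 2 by ring, e155]
    linear_combination (0) * hf + (t ^ 4) * hp
  have e620 : t ^ 620 = t ^ 5 + t ^ 4 + t ^ 2 := by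
    rw [show t ^ 620 = (t ^ 310) ^ 2 by ring, e310]
    linear_combination (t ^ 2) * hf + (t ^ 8) * hp
  have e62 : t ^ 62 = t ^ 8 + t ^ 7 + t ^ 6 + t ^ 4 + t ^ 2 + 1 := by
    rw [show t ^ 62 = (t ^ 31) ^ 2 by ring, e31]
    linear_combination (t ^ 4 + 2 * t + 2) * hf + (t ^ 8 + 2 * t ^ 7 + t ^ 5 + 3 * t ^ 4 + 2 * t ^ 3 + 2 * t + 1) * hp
  have e63 : t ^ 63 = t ^ 9 + t ^ 8 + t ^ 7 + t ^ 5 + t ^ 3 + t := by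
    rw [show t ^ 63 = t ^ 62 * t by ring, e62]
    linear_combination (0) * hf + (0) * hp
  have e126 : t ^ 126 = t ^ 9 + t ^ 8 + t ^ 7 + t ^ 3 + t ^ 2 + t + 1 := by
    rw [show t ^ 126 = (t ^ 63) ^ 2 by ring, e63]
    linear_combination (t ^ 8 + 2 * t ^ 7 + 3 * t ^ 6 + 2 * t ^ 5 + 3 * t ^ 4 + 2 * t ^ 3 + 4 * t ^ 2 + 3 * t + 7) * hf + (2 * t ^ 9 + 3 * t ^ 8 + 2 * t ^ 7 + 4 * t ^ 6 + 3 * t ^ 5 + 4 * t ^ 4 + 4 * t ^ 3 + 2 * t ^ 2 + t + 3) * hp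
  have e127 : t ^ 127 = t ^ 9 + t ^ 8 + t ^ 4 + t ^ 2 + t + 1 := by
    rw [show t ^ 127 = t ^ 126 * t by ring, e126]
    linear_combination (1) * hf + (t ^ 3) * hp
  have e254 : t ^ 254 = t ^ 9 + t ^ 6 + t ^ 2 + t + 1 := by
    rw [show t ^ 254 = (t ^ 127) ^ 2 by ring, e127]
    linear_combination (t ^ 8 + 2 * t ^ 7 + t ^ 6 + 2 * t ^ 3 + 2 * t ^ 2 + 3 * t + 6) * hf + (2 * t ^ 9 + 2 * t ^ 8 + t ^ 7 + 2 * t ^ 6 + 2 * t ^ 5 + 3 * t ^ 4 + 5 * t ^ 3 + 2 * t ^ 2 + 2 * t + 3) * hp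
  have e255 : t ^ 255 = t ^ 7 + t ^ 2 + t + 1 := by
    rw [show t ^ 255 = t ^ 254 * t by ring, e254]
    linear_combination (1) * hf + (t ^ 3) * hp
  have e510 : t ^ 510 = t ^ 7 + t ^ 2 + 1 := by
    rw [show t ^ 510 = (t ^ 255) ^ 2 by ring, e255]
    linear_combination (t ^ 4) * hf + (t ^ 9 + t ^ 8 + t ^ 7 + t ^ 4 + t ^ 3 + t ^ 2 + t) * hp
  have e511 : t ^ 511 = t ^ 8 + t ^ 3 + t := by
    rw [show t ^ 511 = t ^ 510 * t by ring, e510]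
    linear_combination (0) * hf + (0) * hp
  have e1022 : t ^ 1022 = t ^ 9 + t ^ 2 := by
    rw [show t ^ 1022 = (t ^ 511) ^ 2 by ring, e511]
    linear_combination (t ^ 6 + 2 * t) * hf + (t ^ 9 + t ^ 6 + 2 * t ^ 4 + t) * hp
  have e1023 : t ^ 1023 = 1 := by
    rw [show t ^ 1023 = t ^ 1022 * t by ring, e1022]
    linear_combination (1) * hf + (t ^ 3) * hp
  have e20 : t ^ 20 = t ^ 6 + 1 := by
    rw [show t ^ 20 = (t ^ 10) ^ 2 by ring, e10]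
    linear_combination (0) * hf + (t ^ 3) * hp
  have e21 : t ^ 21 = t ^ 7 + t := by
    rw [show t ^ 21 = t ^ 20 * t by ring, e20]
    linear_combination (0) * hf + (0) * hp
  have e42 : t ^ 42 = t ^ 7 + t ^ 4 + t ^ 2 := by
    rw [show t ^ 42 = (t ^ 21) ^ 2 by ring, e21]
    linear_combination (t ^ 4) * hf + (t ^ 8) * hp
  have e84 : t ^ 84 = t ^ 8 + t ^ 7 := by
    rw [show t ^ 84 = (t ^ 42) ^ 2 by ring, e42]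
    linear_combination (t ^ 4 + 2 * t) * hf + (t ^ 9 + t ^ 6 + 2 * t ^ 4 + t) * hp
  have e85 : t ^ 85 = t ^ 9 + t ^ 8 := by
    rw [show t ^ 85 = t ^ 84 * t by ring, e84]
    linear_combination (0) * hf + (0) * hp
  have e170 : t ^ 170 = t ^ 9 + t ^ 8 + t ^ 6 + t ^ 4 + t := by
    rw [show t ^ 170 = (t ^ 85) ^ 2 by ring, e85]
    linear_combination (t ^ 8 + 2 * t ^ 7 + t ^ 6 + t + 2) * hf + (t ^ 7 + t ^ 3 + 1) * hp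
  have e340 : t ^ 340 = t ^ 9 + t ^ 6 + t ^ 5 + t ^ 4 + t := by
    rw [show t ^ 340 = (t ^ 170) ^ 2 by ring, e170]
    linear_combination (t ^ 8 + 2 * t ^ 7 + t ^ 6 + 2 * t ^ 5 + 2 * t ^ 4 + 2 * t ^ 3 + 3 * t ^ 2 + t + 6) * hf + (t ^ 9 + 2 * t ^ 8 + 3 * t ^ 7 + t ^ 6 + 3 * t ^ 5 + t ^ 4 + 4 * t ^ 3 + 2 * t ^ 2 + 3) * hp
  have e341 : t ^ 341 = t ^ 7 + t ^ 6 + t ^ 5 + t ^ 3 + t ^ 2 + 1 := by
    rw [show t ^ 341 = t ^ 340 * t by ring, e340]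
    linear_combination (1) * hf + (0) * hp
  have n341 : t ^ 341 ≠ 1 := by
    intro h1
    rw [e341] at h1
    apply one_ne_zero (α := K)
    linear_combination (t ^ 7 + t ^ 6 + t ^ 5 + t ^ 3 + t ^ 2 + 1) * h1 + (-t ^ 4 - 2 * t ^ 3 - 3 * t ^ 2 - 2 * t - 3) * hf + (-2 * t ^ 9 - 2 * t ^ 8 - 2 * t ^ 7 - 2 * t ^ 6 - 3 * t ^ 5 - 2 * t ^ 4 - 3 * t ^ 3 - 2 * t ^ 2 - t - 1) * hp
  have e92 : t ^ 92 = t ^ 9 + t ^ 8 + t ^ 6 + t ^ 5 := by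
    rw [show t ^ 92 = (t ^ 46) ^ 2 by ring, e46]
    linear_combination (t ^ 6 + 2 * t ^ 4 + 3 * t ^ 2 + 2) * hf + (t ^ 9 + 2 * t ^ 7 + 2 * t ^ 5 + t ^ 4 + t ^ 3 + 2 * t ^ 2 + 1) * hp
  have e93 : t ^ 93 = t ^ 9 + t ^ 7 + t ^ 6 + t ^ 3 + 1 := by
    rw [show t ^ 93 = t ^ 92 * t by ring, e92]
    linear_combination (1) * hf + (0) * hp
  have n93 : t ^ 93 ≠ 1 := by
    intro h1
    rw [e93] at h1
    apply one_ne_zero (α := K)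
    linear_combination (t ^ 9 + t ^ 7 + t ^ 3 + t ^ 2 + t) * h1 + (-t ^ 8 - 2 * t ^ 6 - t ^ 5 - t ^ 4 - t ^ 3 - 2 * t ^ 2 - 2 * t - 3) * hf + (-2 * t ^ 9 - 2 * t ^ 8 - t ^ 7 - 2 * t ^ 6 - 2 * t ^ 5 - 2 * t ^ 4 - 2 * t ^ 3 - t ^ 2 - t - 1) * hp
  have e32 : t ^ 32 = t ^ 8 + t ^ 5 + t ^ 4 + t ^ 2 + t := by
    rw [show t ^ 32 = (t ^ 16) ^ 2 by ring, e16]
    linear_combination (t ^ 8 + 2 * t ^ 5 + t ^ 2 + t) * hf + (t ^ 8 + t ^ 5) * hp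
  have e33 : t ^ 33 = t ^ 9 + t ^ 6 + t ^ 5 + t ^ 3 + t ^ 2 := by
    rw [show t ^ 33 = t ^ 32 * t by ring, e32]
    linear_combination (0) * hf + (0) * hp
  have n33 : t ^ 33 ≠ 1 := by
    intro h1
    rw [e33] at h1
    apply one_ne_zero (α := K)
    linear_combination (t ^ 9 + t ^ 8 + t ^ 6 + t ^ 4 + t ^ 2 + t + 1) * h1 + (-t ^ 8 - t ^ 7 - 2 * t ^ 5 - 2 * t ^ 4 - 2 * t ^ 3 - 2 * t ^ 2 - 5 * t - 4) * hf + (-t ^ 9 - 2 * t ^ 8 - 3 * t ^ 7 - 2 * t ^ 6 - 3 * t ^ 5 - 4 * t ^ 4 - 4 * t ^ 3 - t ^ 2 - 2 * t - 1) * hp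
  refine ⟨?_, ?_, e1023, n341, n93, n33⟩
  · rw [e758, e31]; linear_combination (-1) * hp
  · rw [e620, e277]; linear_combination (-1) * hp

end Pool.Agent.H5.BoseSinger
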