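import Pool.Agent.H5.BoseInv
import Pool.Agent.H5.FieldModel
import Pool.Agent.H5.Chain1024

namespace Pool.Agent.H5.BoseSinger

open Polynomial

theorem zmod2_cases' : ∀ v : ZMod 2, v = 0 ∨ v = 1 := by decide

theorem two_pow_mod1023 (i : ℕ) : ((2 : ZMod 1023)) ^ i = 2 ^ (i % 10) := by
  conv_lhs => rw [← Nat.div_add_mod i 10]
  rw [pow_add, pow_mul]
  have : (2 : ZMod 1023) ^ 10 = 1 := by decide
  rw [this, one_pow, one_mul]

theorem sep1023 (A B : ZMod 1023) (h : ∀ j : Fin 10, (277 : ZMod 1023) + A * 2 ^ (j : ℕ) ≠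
    B * 2 ^ (j : ℕ)) (i : ℕ) : (277 : ZMod 1023) + A * 2 ^ i ≠ B * 2 ^ i := by
  rw [two_pow_mod1023]
  exact h ⟨i % 10, Nat.mod_lt _ (by norm_num)⟩

theorem orderOf_1023 (K : Type) [Field K] (t : Kˣ) (hp : (2 : K) = 0)
    (hf : (t : K) ^ 10 = (t : K) ^ 3 + 1) : orderOf t = 1023 := by
  obtain ⟨-, -, h1, h2, h3, h4⟩ := chain1024 K (t : K) hp hf
  apply orderOf_eq_of_pow_and_pow_div_prime (by norm_num)
  · exact Units.ext (by simpa using h1)
  · intro p hp' hdvd
    have h5 : p ∣ 3 * 11 * 31 := by norm_num; exact hdvd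
    have hcases : p = 3 ∨ p = 11 ∨ p = 31 := by
      rcases (Nat.Prime.dvd_mul hp').mp h5 with h6 | h6
      · rcases (Nat.Prime.dvd_mul hp').mp h6 with h7 | h7
        · left; exact (Nat.prime_dvd_prime_iff_eq hp' (by norm_num)).mp h7
        · right; left; exact (Nat.prime_dvd_prime_iff_eq hp' (by norm_num)).mp h7
      · right; right; exact (Nat.prime_dvd_prime_iff_eq hp' (by norm_num)).mp h6
    rcases hcases with rfl | rfl | rfl
    · intro h; apply h2
      have := congrArg (fun u : Kˣ => (u : K)) h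
      simpa using this
    · intro h; apply h3
      have := congrArg (fun u : Kˣ => (u : K)) h
      simpa using this
    · intro h; apply h4
      have := congrArg (fun u : Kˣ => (u : K)) h
      simpa using this

theorem admissible_of (p n : ℕ) [Fact p.Prime] (K : Type) [Field K] [Finite K]
    [Algebra (ZMod p) K] (x : K)
    (hfr : Module.finrank (ZMod p) K = n) (H : ∀ d, d ∣ n → d < n → x ^ p ^ d ≠ x) :
    (minpoly (ZMod p) x).natDegree = n := by
  have hint : IsIntegral (ZMod p) x := Algebra.IsIntegral.isIntegral _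
  have hmul := Module.finrank_mul_finrank (ZMod p) (IntermediateField.adjoin (ZMod p) {x}) K
  rw [hfr, IntermediateField.adjoin.finrank hint] at hmul
  set d := (minpoly (ZMod p) x).natDegree with hd
  have hdvd : d ∣ n := ⟨_, hmul.symm⟩
  have hn0 : 0 < n := by
    rw [← hfr]; exact Module.finrank_pos
  rcases (Nat.le_of_dvd hn0 hdvd).lt_or_eq with hlt | heq
  · exfalso
    apply H d hdvd hlt
    have hcard : Nat.card (IntermediateField.adjoin (ZMod p) {x}) = p ^ d := by
      rw [Module.natCard_eq_pow_finrank (K := ZMod p), IntermediateField.adjoin.finrank hint,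
        Nat.card_zmod]
    haveI : Fintype (IntermediateField.adjoin (ZMod p) {x}) := Fintype.ofFinite _
    have h1 := FiniteField.pow_card (IntermediateField.AdjoinSimple.gen (ZMod p) x)
    rw [← Nat.card_eq_fintype_card, hcard] at h1
    have h2 := congrArg (fun y => (algebraMap (IntermediateField.adjoin (ZMod p) {x}) K) y) h1
    simp only [map_pow, IntermediateField.AdjoinSimple.algebraMap_gen] at h2
    exact h2
  · exact heq

theorem singer_set (K : Type) [Field K] [Algebra (ZMod 2) K] (q h : ℕ) (θ : Kˣ)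
    (hord : orderOf θ = ((q ^ (h + 1) - 1) / (q - 1))) (b c : ℤ)
    (hbc : ((θ ^ c : Kˣ) : K) = ((θ ^ b : Kˣ) : K) + 1) :
    Singer (ZMod 2) q h θ b = {(0 : ZMod ((q ^ (h + 1) - 1) / (q - 1))),
      (b : ZMod ((q ^ (h + 1) - 1) / (q - 1))), (c : ZMod ((q ^ (h + 1) - 1) / (q - 1)))} := by
  ext x
  simp only [Singer, Set.mem_setOf_eq, Set.mem_insert_iff, Set.mem_singleton_iff]
  constructor
  · rintro ⟨a, rfl, u, v, huv⟩
    rcases zmod2_cases' u with rfl | rfl <;> rcases zmod2_cases' v with rfl | rfl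
    · simp only [map_zero, zero_mul, add_zero] at huv
      exact absurd huv (Units.ne_zero _)
    · left
      simp only [map_zero, zero_mul, zero_add, map_one] at huv
      have h3 : θ ^ a = θ ^ (0 : ℤ) := Units.ext (by simpa using huv)
      rw [zpow_eq_zpow_iff_modEq, hord] at h3
      have h4 := (ZMod.intCast_eq_intCast_iff _ _ _).mpr h3
      rw [h4]; simp
    · right; left
      simp only [map_zero, add_zero, map_one, one_mul] at huv
      have h3 : θ ^ a = θ ^ b := Units.ext huv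
      rw [zpow_eq_zpow_iff_modEq, hord] at h3
      exact (ZMod.intCast_eq_intCast_iff _ _ _).mpr h3
    · right; right
      simp only [map_one, one_mul] at huv
      rw [← hbc] at huv
      have h3 : θ ^ a = θ ^ c := Units.ext huv
      rw [zpow_eq_zpow_iff_modEq, hord] at h3
      exact (ZMod.intCast_eq_intCast_iff _ _ _).mpr h3
  · rintro (rfl | rfl | rfl)
    · exact ⟨0, by simp, 0, 1, by simp⟩
    · exact ⟨b, rfl, 1, 0, by simp⟩
    · exact ⟨c, rfl, 1, 1, by rw [hbc]; simp⟩

theorem singer_two_main : ¬ SingerAssertion 2 9 := by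
  intro hA
  haveI : Fact (Nat.Prime 2) := ⟨Nat.prime_two⟩
  obtain ⟨K, _, _, θ, hfr, hroot, hord, hfinK, hgen⟩ := exists_model 2 10 (by norm_num)
    (X ^ 10 + X ^ 3 + 1 : (ZMod 2)[X]) (by compute_degree!) (by
      intro K _ _ t ht
      haveI : CharP K 2 := charP_of_injective_algebraMap (algebraMap (ZMod 2) K).injective 2
      have h2 : (2 : K) = 0 := by exact_mod_cast CharP.cast_eq_zero K 2
      have h3 : (t : K) ^ 10 = (t : K) ^ 3 + 1 := by
        simp at ht
        linear_combination ht - h2 * ((t : K) ^ 3 + 1)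
      rw [orderOf_1023 K t h2 h3]; norm_num)
    (by simp [coeff_X_pow, coeff_one])
  have hord' : orderOf θ = 1023 := by rw [hord]; norm_num
  haveI : CharP K 2 := charP_of_injective_algebraMap (algebraMap (ZMod 2) K).injective 2
  haveI : ExpChar K 2 := ExpChar.prime Nat.prime_two
  have h2 : (2 : K) = 0 := by exact_mod_cast CharP.cast_eq_zero K 2
  have hf : (θ : K) ^ 10 = (θ : K) ^ 3 + 1 := by
    simp at hroot
    linear_combination hroot - h2 * ((θ : K) ^ 3 + 1)
  obtain ⟨hz1, hz2, h1023, -, -, -⟩ := chain1024 K (θ : K) h2 hf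
  have hcardθ : θ ^ (((2 ^ (9 + 1) - 1 : ℕ) : ℤ)) = 1 := by
    rw [zpow_natCast]
    exact Units.ext (by simpa using h1023)
  have hm : ∀ k : ℤ, ∃ c : ZMod 2,
      ((θ ^ ((((2 ^ (9 + 1) - 1) / (2 - 1) : ℕ) : ℤ) * k) : Kˣ) : K) =
        algebraMap (ZMod 2) K c := by
    intro k
    refine ⟨1, ?_⟩
    have : (2 ^ (9 + 1) - 1) / (2 - 1) = 2 ^ (9 + 1) - 1 := by simp
    rw [this, zpow_mul, hcardθ, one_zpow]
    simp
  -- admissibility of exponents
  have hadm : ∀ b : ℕ, (∀ d, d ∣ 10 → d < 10 → ¬ (b * 2 ^ d ≡ b [MOD 1023])) →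
      Admissible (ZMod 2) (9 + 1) θ (b : ℤ) := by
    intro b hb
    unfold Admissible
    apply admissible_of 2 (9 + 1) K _ hfr
    intro d hd hlt heq
    apply hb d hd hlt
    rw [← hord', ← pow_eq_pow_iff_modEq]
    apply Units.ext
    rw [zpow_natCast] at heq
    simp only [Units.val_pow_eq_pow_val] at heq ⊢
    rw [pow_mul]
    exact heq
  have hdiv : ∀ d, d ∣ 10 → d < 10 → d = 1 ∨ d = 2 ∨ d = 5 := by
    intro d hd hlt
    interval_cases d <;> simp_all <;> omega
  have hadm31 : Admissible (ZMod 2) (9 + 1) θ ((31 : ℕ) : ℤ) := by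
    apply hadm
    intro d hd hlt
    rcases hdiv d hd hlt with rfl | rfl | rfl <;> decide
  have hadm277 : Admissible (ZMod 2) (9 + 1) θ ((277 : ℕ) : ℤ) := by
    apply hadm
    intro d hd hlt
    rcases hdiv d hd hlt with rfl | rfl | rfl <;> decide
  have hM : orderOf θ = (2 ^ (9 + 1) - 1) / (2 - 1) := by rw [hord']; norm_num
  have hS31 := singer_set K 2 9 θ hM ((31 : ℕ) : ℤ) ((758 : ℕ) : ℤ) (by
    simp only [zpow_natCast, Units.val_pow_eq_pow_val]; exact hz1)
  have hS277 := singer_set K 2 9 θ hM ((277 : ℕ) : ℤ) ((620 : ℕ) : ℤ) (by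
    simp only [zpow_natCast, Units.val_pow_eq_pow_val]; exact hz2)
  have haff : AffEquiv (Singer (ZMod 2) 2 9 θ ((277 : ℕ) : ℤ))
      (Singer (ZMod 2) 2 9 θ ((31 : ℕ) : ℤ)) := by
    refine ⟨830, 0, ?_, ?_⟩
    · exact IsUnit.of_mul_eq_one 53 (by decide)
    · rw [hS31, hS277, Set.image_insert_eq, Set.image_pair]
      have e1 : (830 : ZMod ((2 ^ (9 + 1) - 1) / (2 - 1))) * 0 + 0 = 0 := by decide
      have e2 : (830 : ZMod ((2 ^ (9 + 1) - 1) / (2 - 1))) *
        ((((277 : ℕ) : ℤ)) : ZMod ((2 ^ (9 + 1) - 1) / (2 - 1))) + 0 =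
        ((((758 : ℕ) : ℤ)) : ZMod ((2 ^ (9 + 1) - 1) / (2 - 1))) := by decide
      have e3 : (830 : ZMod ((2 ^ (9 + 1) - 1) / (2 - 1))) *
        ((((620 : ℕ) : ℤ)) : ZMod ((2 ^ (9 + 1) - 1) / (2 - 1))) + 0 =
        ((((31 : ℕ) : ℤ)) : ZMod ((2 ^ (9 + 1) - 1) / (2 - 1))) := by decide
      rw [e1, e2, e3]
      congr 1
      exact Set.pair_comm _ _
  have hrel := hA 2 (ZMod 2) K θ Nat.prime_two inferInstance (by simp) hfr hgen
    ⟨_, hadm277⟩ ⟨_, hadm31⟩ haff
  obtain ⟨α, β, γ, δ, i, hdet, hform⟩ := singer_form 2 2 9 θ (by norm_num) hm hcardθ _ _ hrel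
  simp only [zpow_natCast, Units.val_pow_eq_pow_val] at hform
  -- powers of `X + 1`
  have hX1 : ((θ : K) ^ 31) ^ 2 ^ i + 1 = (θ : K) ^ (758 * 2 ^ i) := by
    rw [pow_mul, hz1, add_pow_expChar_pow, one_pow]
  have hX0 : ((θ : K) ^ 31) ^ 2 ^ i = (θ : K) ^ (31 * 2 ^ i) := by rw [pow_mul]
  have fin : ∀ A B : ℕ, (∀ j : Fin 10, (277 : ZMod 1023) + (A : ZMod 1023) * 2 ^ (j : ℕ) ≠
      (B : ZMod 1023) * 2 ^ (j : ℕ)) →
      (θ : K) ^ 277 * (θ : K) ^ (A * 2 ^ i) = (θ : K) ^ (B * 2 ^ i) → False := by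
    intro A B hAB heq
    apply sep1023 _ _ hAB i
    have h5 : θ ^ (277 + A * 2 ^ i) = θ ^ (B * 2 ^ i) := by
      apply Units.ext
      simp only [Units.val_pow_eq_pow_val]
      rw [pow_add]; exact heq
    rw [pow_eq_pow_iff_modEq, hord'] at h5
    have h6 := (ZMod.natCast_eq_natCast_iff _ _ _).mpr h5
    push_cast at h6
    exact h6
  rcases zmod2_cases' α with rfl | rfl <;> rcases zmod2_cases' β with rfl | rfl <;>
    rcases zmod2_cases' γ with rfl | rfl <;> rcases zmod2_cases' δ with rfl | rfl <;>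
    first
    | (apply hdet; simp; done)
    | skip
  · simp only [map_zero, map_one, zero_mul, one_mul, zero_add, add_zero] at hform
    refine fin 31 0 (by decide) ?_
    rw [zero_mul, pow_zero, ← hX0]; exact hform
  · simp only [map_zero, map_one, zero_mul, one_mul, zero_add] at hform
    refine fin 758 0 (by decide) ?_
    rw [zero_mul, pow_zero, ← hX1]; exact hform
  · simp only [map_zero, map_one, zero_mul, one_mul, zero_add, add_zero, mul_one] at hform
    refine fin 0 31 (by decide) ?_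
    rw [zero_mul, pow_zero, mul_one, ← hX0]; exact hform
  · simp only [map_zero, map_one, one_mul, add_zero] at hform
    refine fin 758 31 (by decide) ?_
    rw [← hX0, ← hX1]; exact hform
  · simp only [map_zero, map_one, zero_mul, one_mul, zero_add, mul_one] at hform
    refine fin 0 758 (by decide) ?_
    rw [zero_mul, pow_zero, mul_one, ← hX1]; exact hform
  · simp only [map_zero, map_one, one_mul, add_zero] at hform
    refine fin 31 758 (by decide) ?_
    rw [← hX0, ← hX1]; exact hform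

end Pool.Agent.H5.BoseSinger
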