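import Pool.Agent.H5.BoseInv
import Pool.Agent.H5.FieldModel
import Pool.Agent.H5.Chain729
import Pool.Agent.H5.SingerTwo

namespace Pool.Agent.H5.BoseSinger

open Polynomial

theorem zmod3_cases : ∀ v : ZMod 3, v = 0 ∨ v = 1 ∨ v = 2 := by decide

theorem two_ne_zero_zmod3 : (2 : ZMod 3) ≠ 0 := by decide

theorem three_pow_mod728 (i : ℕ) : ((3 : ZMod 728)) ^ i = 3 ^ (i % 6) := by
  conv_lhs => rw [← Nat.div_add_mod i 6]
  rw [pow_add, pow_mul]
  have : (3 : ZMod 728) ^ 6 = 1 := by decide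
  rw [this, one_pow, one_mul]

theorem sep728 (A B : ZMod 728) (h : ∀ j : Fin 6, (67 : ZMod 728) ≠
    A * 3 ^ (j : ℕ) + B) (i : ℕ) : (67 : ZMod 728) ≠ A * 3 ^ i + B := by
  rw [three_pow_mod728]
  exact h ⟨i % 6, Nat.mod_lt _ (by norm_num)⟩

theorem orderOf_728 (K : Type) [Field K] (t : Kˣ) (hp : (3 : K) = 0)
    (hf : (t : K) ^ 6 = 2 * (t : K) + 1) : orderOf t = 728 := by
  obtain ⟨-, -, -, -, -, h1, h2, h3, h4⟩ := chain729 K (t : K) hp hf
  apply orderOf_eq_of_pow_and_pow_div_prime (by norm_num)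
  · exact Units.ext (by simpa using h1)
  · intro p hp' hdvd
    have h5 : p ∣ 2 ^ 3 * 7 * 13 := by norm_num; exact hdvd
    have hcases : p = 2 ∨ p = 7 ∨ p = 13 := by
      rcases (Nat.Prime.dvd_mul hp').mp h5 with h6 | h6
      · rcases (Nat.Prime.dvd_mul hp').mp h6 with h7 | h7
        · left
          exact (Nat.prime_dvd_prime_iff_eq hp' (by norm_num)).mp (hp'.dvd_of_dvd_pow h7)
        · right; left; exact (Nat.prime_dvd_prime_iff_eq hp' (by norm_num)).mp h7
      · right; right; exact (Nat.prime_dvd_prime_iff_eq hp' (by norm_num)).mp h6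
    rcases hcases with rfl | rfl | rfl
    · intro h; apply h2
      have := congrArg (fun u : Kˣ => (u : K)) h
      simpa using this
    · intro h; apply h3
      have := congrArg (fun u : Kˣ => (u : K)) h
      simpa using this
    · intro h; apply h4
      have := congrArg (fun u : Kˣ => (u : K)) h
      simpa using this

theorem bose_set3 (K : Type) [Field K] [Algebra (ZMod 3) K] (q h : ℕ) (θ : Kˣ)
    (hord : orderOf θ = q ^ h - 1) (b c d : ℤ)
    (hbc : ((θ ^ c : Kˣ) : K) = ((θ ^ b : Kˣ) : K) + 1)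
    (hbd : ((θ ^ d : Kˣ) : K) = ((θ ^ b : Kˣ) : K) + 2) :
    Bose (ZMod 3) q h θ b = {(b : ZMod (q ^ h - 1)),
      (c : ZMod (q ^ h - 1)), (d : ZMod (q ^ h - 1))} := by
  ext x
  simp only [Bose, Set.mem_setOf_eq, Set.mem_insert_iff, Set.mem_singleton_iff]
  have h2 : algebraMap (ZMod 3) K 2 = 2 := map_ofNat _ 2
  constructor
  · rintro ⟨a, rfl, v, hv⟩
    rcases zmod3_cases v with rfl | rfl | rfl
    · left
      rw [map_zero, add_zero] at hv
      have h3 : θ ^ a = θ ^ b := Units.ext hv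
      rw [zpow_eq_zpow_iff_modEq, hord] at h3
      exact (ZMod.intCast_eq_intCast_iff _ _ _).mpr h3
    · right; left
      rw [map_one, ← hbc] at hv
      have h3 : θ ^ a = θ ^ c := Units.ext hv
      rw [zpow_eq_zpow_iff_modEq, hord] at h3
      exact (ZMod.intCast_eq_intCast_iff _ _ _).mpr h3
    · right; right
      rw [h2, ← hbd] at hv
      have h3 : θ ^ a = θ ^ d := Units.ext hv
      rw [zpow_eq_zpow_iff_modEq, hord] at h3
      exact (ZMod.intCast_eq_intCast_iff _ _ _).mpr h3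
  · rintro (rfl | rfl | rfl)
    · exact ⟨b, rfl, 0, by simp⟩
    · exact ⟨c, rfl, 1, by rw [hbc]; simp⟩
    · exact ⟨d, rfl, 2, by rw [hbd, h2]⟩

theorem bose_three_main : ¬ BoseAssertion 3 6 := by
  intro hA
  haveI : Fact (Nat.Prime 3) := ⟨Nat.prime_three⟩
  obtain ⟨K, _, _, θ, hfr, hroot, hord, hfinK, hgen⟩ := exists_model 3 6 (by norm_num)
    (X ^ 6 + X + 2 : (ZMod 3)[X]) (by compute_degree!) (by
      intro K _ _ t ht
      haveI : CharP K 3 := charP_of_injective_algebraMap (algebraMap (ZMod 3) K).injective 3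
      have h2 : (3 : K) = 0 := by exact_mod_cast CharP.cast_eq_zero K 3
      have h3 : (t : K) ^ 6 = 2 * (t : K) + 1 := by
        have h4 : (aeval (t : K)) (2 : (ZMod 3)[X]) = 2 := map_ofNat _ 2
        simp only [map_add, map_pow, aeval_X, h4] at ht
        linear_combination ht - h2 * ((t : K) + 1)
      rw [orderOf_728 K t h2 h3]; norm_num)
    (by
      have : (X ^ 6 + X + 2 : (ZMod 3)[X]).coeff 0 = 2 := by simp [coeff_X_pow]
      rw [this]; exact two_ne_zero_zmod3)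
  have hord' : orderOf θ = 728 := by rw [hord]; norm_num
  haveI : CharP K 3 := charP_of_injective_algebraMap (algebraMap (ZMod 3) K).injective 3
  haveI : ExpChar K 3 := ExpChar.prime Nat.prime_three
  have h2 : (3 : K) = 0 := by exact_mod_cast CharP.cast_eq_zero K 3
  have hf : (θ : K) ^ 6 = 2 * (θ : K) + 1 := by
    have h4 : (aeval (θ : K)) (2 : (ZMod 3)[X]) = 2 := map_ofNat _ 2
    simp only [map_add, map_pow, aeval_X, h4] at hroot
    linear_combination hroot - h2 * ((θ : K) + 1)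
  obtain ⟨hz1, hz2, hz3, hz4, h364, h728, -, -, -⟩ := chain729 K (θ : K) h2 hf
  have hcardθ : θ ^ (((3 ^ 6 - 1 : ℕ) : ℤ)) = 1 := by
    rw [zpow_natCast]
    exact Units.ext (by simpa using h728)
  have hm : ∀ k : ℤ, ∃ c : ZMod 3,
      ((θ ^ ((((3 ^ 6 - 1) / (3 - 1) : ℕ) : ℤ) * k) : Kˣ) : K) =
        algebraMap (ZMod 3) K c := by
    intro k
    refine ⟨2 ^ k, ?_⟩
    rw [zpow_mul, zpow_natCast, map_zpow₀, Units.val_zpow_eq_zpow_val, Units.val_pow_eq_pow_val]
    congr 1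
    have : (3 ^ 6 - 1) / (3 - 1) = 364 := by norm_num
    rw [this, h364]
    exact (map_ofNat _ 2).symm
  -- admissibility of exponents
  have hadm : ∀ b : ℕ, (∀ d, d ∣ 6 → d < 6 → ¬ (b * 3 ^ d ≡ b [MOD 728])) →
      Admissible (ZMod 3) 6 θ (b : ℤ) := by
    intro b hb
    unfold Admissible
    apply admissible_of 3 6 K _ hfr
    intro d hd hlt heq
    apply hb d hd hlt
    rw [← hord', ← pow_eq_pow_iff_modEq]
    apply Units.ext
    rw [zpow_natCast] at heq
    simp only [Units.val_pow_eq_pow_val] at heq ⊢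
    rw [pow_mul]
    exact heq
  have hdiv : ∀ d, d ∣ 6 → d < 6 → d = 1 ∨ d = 2 ∨ d = 3 := by
    intro d hd hlt
    interval_cases d <;> simp_all <;> omega
  have hadm37 : Admissible (ZMod 3) 6 θ ((37 : ℕ) : ℤ) := by
    apply hadm
    intro d hd hlt
    rcases hdiv d hd hlt with rfl | rfl | rfl <;> decide
  have hadm67 : Admissible (ZMod 3) 6 θ ((67 : ℕ) : ℤ) := by
    apply hadm
    intro d hd hlt
    rcases hdiv d hd hlt with rfl | rfl | rfl <;> decide
  have hB37 := bose_set3 K 3 6 θ hord ((37 : ℕ) : ℤ) ((635 : ℕ) : ℤ) ((434 : ℕ) : ℤ) (by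
    simp only [zpow_natCast, Units.val_pow_eq_pow_val]; exact hz1) (by
    simp only [zpow_natCast, Units.val_pow_eq_pow_val]; exact hz2)
  have hB67 := bose_set3 K 3 6 θ hord ((67 : ℕ) : ℤ) ((717 : ℕ) : ℤ) ((462 : ℕ) : ℤ) (by
    simp only [zpow_natCast, Units.val_pow_eq_pow_val]; exact hz3) (by
    simp only [zpow_natCast, Units.val_pow_eq_pow_val]; exact hz4)
  have haff : AffEquiv (Bose (ZMod 3) 3 6 θ ((67 : ℕ) : ℤ))
      (Bose (ZMod 3) 3 6 θ ((37 : ℕ) : ℤ)) := by
    refine ⟨95, 224, ?_, ?_⟩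
    · exact IsUnit.of_mul_eq_one 23 (by decide)
    · rw [hB37, hB67, Set.image_insert_eq, Set.image_pair]
      have e1 : (95 : ZMod (3 ^ 6 - 1)) *
        ((((67 : ℕ) : ℤ)) : ZMod (3 ^ 6 - 1)) + 224 =
        ((((37 : ℕ) : ℤ)) : ZMod (3 ^ 6 - 1)) := by decide
      have e2 : (95 : ZMod (3 ^ 6 - 1)) *
        ((((717 : ℕ) : ℤ)) : ZMod (3 ^ 6 - 1)) + 224 =
        ((((635 : ℕ) : ℤ)) : ZMod (3 ^ 6 - 1)) := by decide
      have e3 : (95 : ZMod (3 ^ 6 - 1)) *
        ((((462 : ℕ) : ℤ)) : ZMod (3 ^ 6 - 1)) + 224 =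
        ((((434 : ℕ) : ℤ)) : ZMod (3 ^ 6 - 1)) := by decide
      rw [e1, e2, e3]
  have hrel := hA 3 (ZMod 3) K θ Nat.prime_three inferInstance (by simp) hfr hgen
    ⟨_, hadm67⟩ ⟨_, hadm37⟩ haff
  obtain ⟨c, v, i, hc, hform⟩ := bose_form 3 3 6 θ hm hcardθ _ _ hrel
  simp only [zpow_natCast, Units.val_pow_eq_pow_val] at hform
  have hmm : (2 : K) = -1 := by linear_combination h2
  have hpow2 : (2 : K) ^ 3 ^ i = 2 := by
    rw [hmm]
    exact Odd.neg_one_pow (Odd.pow (by decide))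
  have h22 : algebraMap (ZMod 3) K 2 = 2 := map_ofNat _ 2
  have hX0 : ((θ : K) ^ 37) ^ 3 ^ i = (θ : K) ^ (37 * 3 ^ i) := by rw [pow_mul]
  have hX1 : ((θ : K) ^ 37) ^ 3 ^ i + 1 = (θ : K) ^ (635 * 3 ^ i) := by
    rw [pow_mul, hz1, add_pow_expChar_pow, one_pow]
  have hX2 : ((θ : K) ^ 37) ^ 3 ^ i + 2 = (θ : K) ^ (434 * 3 ^ i) := by
    rw [pow_mul, hz2, add_pow_expChar_pow, hpow2]
  have fin : ∀ A B : ℕ, (∀ j : Fin 6, (67 : ZMod 728) ≠ (A : ZMod 728) * 3 ^ (j : ℕ) +
      (B : ZMod 728)) → (θ : K) ^ 67 = (θ : K) ^ (A * 3 ^ i) * (θ : K) ^ B → False := by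
    intro A B hAB heq
    apply sep728 _ _ hAB i
    have h5 : θ ^ 67 = θ ^ (A * 3 ^ i + B) := by
      apply Units.ext
      simp only [Units.val_pow_eq_pow_val]
      rw [pow_add]; exact heq
    rw [pow_eq_pow_iff_modEq, hord'] at h5
    have h6 := (ZMod.natCast_eq_natCast_iff _ _ _).mpr h5
    push_cast at h6
    exact h6
  rcases zmod3_cases c with rfl | rfl | rfl
  · exact hc rfl
  · rw [map_one, one_mul] at hform
    rcases zmod3_cases v with rfl | rfl | rfl
    · rw [map_zero, add_zero, hX0] at hform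
      exact fin 37 0 (by decide) (by rw [pow_zero, mul_one]; exact hform)
    · rw [map_one, hX1] at hform
      exact fin 635 0 (by decide) (by rw [pow_zero, mul_one]; exact hform)
    · rw [h22, hX2] at hform
      exact fin 434 0 (by decide) (by rw [pow_zero, mul_one]; exact hform)
  · rw [h22] at hform
    rcases zmod3_cases v with rfl | rfl | rfl
    · refine fin 37 364 (by decide) ?_
      rw [h364, ← hX0, hform, map_zero]; ring
    · refine fin 434 364 (by decide) ?_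
      rw [h364, ← hX2, hform, map_one]
      linear_combination -h2
    · refine fin 635 364 (by decide) ?_
      rw [h364, ← hX1, hform, h22]; ring

end Pool.Agent.H5.BoseSinger
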