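import Pool.Agent.H5.BoseInv

namespace Pool.Agent.H5.BoseSinger

open Polynomial IntermediateField

theorem sq_totient_ge (n : ℕ) : Odd n → n ≤ (Nat.totient n) ^ 2 := by
  induction n using Nat.recOnPosPrimePosCoprime with
  | zero => intro h; exact Nat.zero_le _
  | one => intro _; simp
  | prime_pow p k hp hk =>
    intro hodd
    have hp2 : p ≠ 2 := by
      rintro rfl
      exact absurd hodd (by simp [Nat.not_odd_iff_even, Nat.even_pow, hk.ne'])
    have hp3 : 3 ≤ p := by
      have := hp.two_le; omega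
    rw [Nat.totient_prime_pow hp hk]
    obtain ⟨m, rfl⟩ : ∃ m, k = m + 1 := ⟨k - 1, by omega⟩
    obtain ⟨r, rfl⟩ : ∃ r, p = r + 3 := ⟨p - 3, by omega⟩
    have h1 : 1 ≤ (r + 3) ^ m := Nat.one_le_pow _ _ (by omega)
    have h2 : r + 3 - 1 = r + 2 := by omega
    simp only [Nat.add_sub_cancel, h2]
    rw [pow_succ]
    nlinarith [h1, Nat.zero_le r, mul_nonneg (Nat.zero_le r) (Nat.zero_le r),
      Nat.mul_le_mul h1 h1]
  | coprime a b ha hb hab iha ihb =>
    intro hodd
    rw [Nat.odd_mul] at hodd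
    rw [Nat.totient_mul hab, mul_pow]
    exact Nat.mul_le_mul (iha hodd.1) (ihb hodd.2)

theorem totient_mersenne_gt (h : ℕ) (hh : 5 ≤ h) : 2 * h < Nat.totient (2 ^ h - 1) := by
  have hodd : Odd (2 ^ h - 1) := by
    refine Nat.Even.sub_odd (Nat.one_le_two_pow) ?_ (by decide)
    exact (Nat.even_pow.mpr ⟨by decide, by omega⟩)
  by_cases h9 : 9 ≤ h
  · have h1 := sq_totient_ge _ hodd
    have h2 : (2 * h) ^ 2 < 2 ^ h - 1 := by
      clear h1 hodd hh
      induction h, h9 using Nat.le_induction with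
      | base => norm_num
      | succ n hn ih =>
        have : 2 ^ (n + 1) = 2 * 2 ^ n := by ring
        have h3 : 1 ≤ 2 ^ n := Nat.one_le_two_pow
        rw [this]
        have : (2 * (n + 1)) ^ 2 + (4 * n ^ 2) ≤ 2 * (2 * n) ^ 2 + (4 * n ^ 2) := by nlinarith
        omega
    by_contra hcon
    push Not at hcon
    have := Nat.pow_le_pow_left hcon 2
    omega
  · have : h = 5 ∨ h = 6 ∨ h = 7 ∨ h = 8 := by omega
    rcases this with rfl | rfl | rfl | rfl <;> decide +kernel


theorem zmod2_cases : ∀ v : ZMod 2, v = 0 ∨ v = 1 := by decide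

theorem exists_gen (K : Type) [Field K] [Finite K] : ∃ θ : Kˣ, ∀ x : Kˣ, x ∈ Subgroup.zpowers θ :=
  IsCyclic.exists_generator

theorem bose_two_main (h : ℕ) (hh : 5 ≤ h) : ¬ BoseAssertion 2 h := by
  intro hA
  haveI : Fact (Nat.Prime 2) := ⟨Nat.prime_two⟩
  have hh0 : h ≠ 0 := by omega
  set K := GaloisField 2 h with hK
  obtain ⟨θ, hθ⟩ := exists_gen K
  have hcardK : Nat.card K = 2 ^ h := GaloisField.card 2 h hh0
  have hfin : Module.finrank (ZMod 2) K = h := GaloisField.finrank 2 hh0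
  haveI : Fintype K := Fintype.ofFinite K
  have hM1 : 31 ≤ 2 ^ h - 1 := by
    have : 2 ^ 5 ≤ 2 ^ h := Nat.pow_le_pow_right (by norm_num) hh
    omega
  have hcardU : Nat.card Kˣ = 2 ^ h - 1 := by
    rw [Nat.card_units, hcardK]
  have hordθ : orderOf θ = 2 ^ h - 1 := by
    rw [orderOf_eq_card_of_forall_mem_zpowers hθ, hcardU]
  have hcardθ : θ ^ (((2 ^ h - 1 : ℕ) : ℤ)) = 1 := by
    rw [zpow_natCast, ← hordθ, pow_orderOf_eq_one]
  have hm : ∀ k : ℤ, ∃ c : ZMod 2,
      ((θ ^ ((((2 ^ h - 1) / (2 - 1) : ℕ) : ℤ) * k) : Kˣ) : K) = algebraMap (ZMod 2) K c := by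
    intro k
    refine ⟨1, ?_⟩
    have : (2 ^ h - 1) / (2 - 1) = 2 ^ h - 1 := by simp
    rw [this, zpow_mul, hcardθ, one_zpow]
    simp
  -- the key property of generators
  have key : ∀ γ : Kˣ, (∀ x : Kˣ, x ∈ Subgroup.zpowers γ) →
      ∃ b : {b : ℤ // Admissible (ZMod 2) h θ b}, ∃ δ : ℤ, IsUnit (δ : ZMod (2 ^ h - 1)) ∧
        ((θ ^ b.1 : Kˣ) : K) = ((γ : K) + 1)⁻¹ ∧
        Bose (ZMod 2) 2 h θ b.1 =
          {(b.1 : ZMod (2 ^ h - 1)), (b.1 : ZMod (2 ^ h - 1)) + (δ : ZMod (2 ^ h - 1))} := by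
    intro γ hγ
    have htwo : (2 : K) = 0 := by
      haveI : CharP K 2 := inferInstance
      exact_mod_cast CharP.cast_eq_zero K 2
    have hordγ : orderOf γ = 2 ^ h - 1 := by
      rw [orderOf_eq_card_of_forall_mem_zpowers hγ, hcardU]
    have hγ1 : (γ : K) + 1 ≠ 0 := by
      intro h0
      have h1 : (γ : K) = 1 := by linear_combination h0 - htwo
      have h2 : γ = 1 := Units.ext (by simpa using h1)
      rw [h2, orderOf_one] at hordγ
      omega
    obtain ⟨b, hb⟩ := Subgroup.mem_zpowers_iff.mp (hθ (Units.mk0 ((γ : K) + 1) hγ1)⁻¹)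
    obtain ⟨δ, hδ⟩ := Subgroup.mem_zpowers_iff.mp (hθ γ)
    have hbv : ((θ ^ b : Kˣ) : K) = ((γ : K) + 1)⁻¹ := by
      rw [hb]; simp
    have hadm : Admissible (ZMod 2) h θ b := by
      unfold Admissible
      have hint : IsIntegral (ZMod 2) ((θ ^ b : Kˣ) : K) := Algebra.IsIntegral.isIntegral _
      rw [← IntermediateField.adjoin.finrank hint]
      have htop : (ZMod 2)⟮((θ ^ b : Kˣ) : K)⟯ = ⊤ := by
        rw [eq_top_iff]
        intro y _
        have hx : ((θ ^ b : Kˣ) : K) ∈ (ZMod 2)⟮((θ ^ b : Kˣ) : K)⟯ :=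
          IntermediateField.mem_adjoin_simple_self _ _
        have hγmem : (γ : K) ∈ (ZMod 2)⟮((θ ^ b : Kˣ) : K)⟯ := by
          have h1 : (γ : K) = (((θ ^ b : Kˣ) : K))⁻¹ - 1 := by
            rw [hbv, inv_inv]; ring
          rw [h1]
          exact sub_mem (inv_mem hx) (one_mem _)
        by_cases hy : y = 0
        · rw [hy]; exact zero_mem _
        · obtain ⟨n, hn⟩ := Subgroup.mem_zpowers_iff.mp (hγ (Units.mk0 y hy))
          have h2 : y = (γ : K) ^ n := by
            have := congrArg (fun u : Kˣ => (u : K)) hn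
            simpa using this.symm
          rw [h2]
          exact zpow_mem hγmem n
      rw [htop, IntermediateField.finrank_top', hfin]
    refine ⟨⟨b, hadm⟩, δ, ?_, hbv, ?_⟩
    · obtain ⟨n, hn⟩ := Subgroup.mem_zpowers_iff.mp (hγ θ)
      have h1 : θ ^ (δ * n) = θ ^ (1 : ℤ) := by
        rw [zpow_mul, hδ, hn, zpow_one]
      rw [zpow_eq_zpow_iff_modEq, hordθ] at h1
      have h2 := (ZMod.intCast_eq_intCast_iff _ _ _).mpr h1
      push_cast at h2
      exact IsUnit.of_mul_eq_one _ h2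
    · have hadd : ((θ ^ (b + δ) : Kˣ) : K) = ((θ ^ b : Kˣ) : K) + 1 := by
        rw [zpow_add, Units.val_mul, hδ, hbv]
        have h5 := mul_inv_cancel₀ hγ1
        linear_combination h5 - ((γ : K) + 1)⁻¹ * htwo
      ext x
      simp only [Bose, Set.mem_setOf_eq, Set.mem_insert_iff, Set.mem_singleton_iff]
      constructor
      · rintro ⟨a, rfl, v, hv⟩
        have hv2 : v = 0 ∨ v = 1 := zmod2_cases v
        rcases hv2 with rfl | rfl
        · left
          rw [map_zero, add_zero] at hv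
          have h3 : θ ^ a = θ ^ b := Units.ext hv
          rw [zpow_eq_zpow_iff_modEq, hordθ] at h3
          exact (ZMod.intCast_eq_intCast_iff _ _ _).mpr h3
        · right
          rw [map_one, ← hadd] at hv
          have h3 : θ ^ a = θ ^ (b + δ) := Units.ext hv
          rw [zpow_eq_zpow_iff_modEq, hordθ] at h3
          have h4 := (ZMod.intCast_eq_intCast_iff _ _ _).mpr h3
          rw [h4]; push_cast; rfl
      · rintro (rfl | rfl)
        · exact ⟨b, rfl, 0, by simp⟩
        · exact ⟨b + δ, by push_cast; rfl, 1, by rw [hadd]; simp⟩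
  -- the base generator
  obtain ⟨b0, δ0, hδ0, hb0, hB0⟩ := key θ hθ
  -- the finite set containing all the conjugates
  classical
  set T : Finset K := (Finset.range h ×ˢ (Finset.univ : Finset (ZMod 2))).image
    (fun iv => ((θ ^ b0.1 : Kˣ) : K) ^ 2 ^ iv.1 + algebraMap (ZMod 2) K iv.2) with hT
  have hTcard : T.card ≤ 2 * h := by
    refine (Finset.card_image_le).trans ?_
    rw [Finset.card_product, Finset.card_range]
    simp [mul_comm]
  have hmem : ∀ γ : Kˣ, (∀ x : Kˣ, x ∈ Subgroup.zpowers γ) → ((γ : K) + 1)⁻¹ ∈ T := by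
    intro γ hγ
    obtain ⟨b, δ, hδ, hb, hB⟩ := key γ hγ
    have haff : AffEquiv (Bose (ZMod 2) 2 h θ b.1) (Bose (ZMod 2) 2 h θ b0.1) := by
      obtain ⟨u, hu⟩ := hδ
      obtain ⟨u0, hu0⟩ := hδ0
      refine ⟨u0 * u⁻¹, (b0.1 : ZMod (2 ^ h - 1)) - u0 * u⁻¹ * (b.1 : ZMod (2 ^ h - 1)),
        ?_, ?_⟩
      · rw [← Units.val_mul]; exact Units.isUnit _
      · rw [hB, hB0, Set.image_pair]
        congr 1
        · ring
        · congr 1
          rw [← hu, ← hu0]
          have : (u0 : ZMod (2 ^ h - 1)) * (u⁻¹ : (ZMod (2 ^ h - 1))ˣ) * (u : ZMod (2 ^ h - 1))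
              = u0 := by
            rw [mul_assoc, ← Units.val_mul, inv_mul_cancel, Units.val_one, mul_one]
          linear_combination -this
    have hsymm : AffEquiv (Bose (ZMod 2) 2 h θ b.1) (Bose (ZMod 2) 2 h θ b0.1) →
        BoseEquiv (ZMod 2) 2 2 h θ b b0 := hA 2 (ZMod 2) K θ Nat.prime_two
          inferInstance (by simp) hfin hθ b b0
    obtain ⟨c, v, i, hc, hform⟩ := bose_form 2 2 h θ hm hcardθ b b0 (hsymm haff)
    have hc1 : c = 1 := (zmod2_cases c).resolve_left hc
    rw [hb, hc1, map_one, one_mul] at hform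
    rw [hform, hT, Finset.mem_image]
    refine ⟨(i % h, v), ?_, ?_⟩
    · simp [Nat.mod_lt _ (by omega : 0 < h)]
    · simp only
      congr 1
      conv_rhs => rw [← Nat.div_add_mod i h]
      rw [pow_add, pow_mul, pow_mul]
      congr 1
      have hcard' : Fintype.card K = 2 ^ h := by
        rw [← Nat.card_eq_fintype_card, hcardK]
      rw [← hcard', FiniteField.pow_card_pow]
  -- count the generators
  have hcount : Nat.totient (2 ^ h - 1) ≤ T.card := by
    haveI : Fintype Kˣ := Fintype.ofFinite _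
    have h1 : (Finset.univ.filter (fun γ : Kˣ => orderOf γ = 2 ^ h - 1)).card =
        Nat.totient (2 ^ h - 1) := by
      apply IsCyclic.card_orderOf_eq_totient
      rw [← Nat.card_eq_fintype_card, hcardU]
    rw [← h1]
    apply Finset.card_le_card_of_injOn (fun γ : Kˣ => ((γ : K) + 1)⁻¹)
    · intro γ hγ
      simp only [Finset.coe_filter, Finset.mem_univ, true_and, Set.mem_setOf_eq] at hγ
      apply hmem
      intro x
      have hz : Subgroup.zpowers γ = ⊤ := by
        apply Subgroup.eq_top_of_card_eq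
        rw [Nat.card_zpowers, hγ, hcardU]
      rw [hz]; exact Subgroup.mem_top x
    · intro γ _ γ' _ heq
      simp only at heq
      have := inv_injective heq
      exact Units.ext (by linear_combination this)
  have := totient_mersenne_gt h hh
  omega

end Pool.Agent.H5.BoseSinger
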